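import Pool.Agent.H36.HM.Phi

/-! Module ADM: basic facts about admissible functions. -/

namespace Pool.Agent.H36.HM

open MeasureTheory Set Filter Topology Real
open Pool.Agent.H99.HM

theorem memLp_ii {g : ℝ → ℝ} (hg : MemLp g 2 (volume.restrict (Ioi 0))) {a b : ℝ}
    (ha : 0 ≤ a) (hab : a ≤ b) : IntervalIntegrable g volume a b := by
  rw [intervalIntegrable_iff_integrableOn_Ioc_of_le hab]
  exact (hg.mono_measure (Measure.restrict_mono
    (fun t ht => lt_of_le_of_lt ha ht.1) le_rfl)).integrable one_le_two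

theorem sq_ii {g : ℝ → ℝ} (hg : MemLp g 2 (volume.restrict (Ioi 0))) {a b : ℝ}
    (ha : 0 ≤ a) (hab : a ≤ b) : IntervalIntegrable (fun t => g t ^ 2) volume a b := by
  rw [intervalIntegrable_iff_integrableOn_Ioc_of_le hab]
  exact hg.integrable_sq.mono_measure (Measure.restrict_mono
    (fun t ht => lt_of_le_of_lt ha ht.1) le_rfl)

theorem Vg_sub {g : ℝ → ℝ} (hg : MemLp g 2 (volume.restrict (Ioi 0))) {a b : ℝ}
    (ha : 0 ≤ a) (hab : a ≤ b) : Vg g b - Vg g a = ∫ t in a..b, g t := by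
  have := intervalIntegral.integral_add_adjacent_intervals (memLp_ii hg le_rfl ha)
    (memLp_ii hg ha hab)
  simp only [Vg]
  rw [← this]; ring

/-- Cauchy Schwarz on an interval. -/
theorem cs_interval {g : ℝ → ℝ} (hg : MemLp g 2 (volume.restrict (Ioi 0))) {a b : ℝ}
    (ha : 0 ≤ a) (hab : a ≤ b) :
    (Vg g b - Vg g a) ^ 2 ≤ (b - a) * ∫ t in a..b, g t ^ 2 := by
  rw [Vg_sub hg ha hab]
  rcases eq_or_lt_of_le hab with h | h
  · rw [h]; simp
  set m := ∫ t in a..b, g t with hm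
  set l := m / (b - a) with hl
  have i1 := memLp_ii hg ha hab
  have i2 := sq_ii hg ha hab
  have h1 : 0 ≤ ∫ t in a..b, (g t - l) ^ 2 :=
    intervalIntegral.integral_nonneg hab (fun t _ => sq_nonneg _)
  have h2 : ∫ t in a..b, (g t - l) ^ 2 = (∫ t in a..b, g t ^ 2) - 2 * l * m + (b - a) * l ^ 2 := by
    have e1 : ∫ t in a..b, (g t - l) ^ 2 = ∫ t in a..b, (g t ^ 2 - 2 * l * g t + l ^ 2) := by
      refine intervalIntegral.integral_congr (fun t _ => ?_)
      ring
    rw [e1, intervalIntegral.integral_add (i2.sub (i1.const_mul _))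
      intervalIntegrable_const, intervalIntegral.integral_sub i2 (i1.const_mul _),
      intervalIntegral.integral_const_mul, intervalIntegral.integral_const, smul_eq_mul]
  have hba : 0 < b - a := by linarith
  have h3 : l * (b - a) = m := by rw [hl]; field_simp
  rw [h2] at h1
  have h4 : 0 ≤ (b - a) * ((∫ t in a..b, g t ^ 2) - 2 * l * m + (b - a) * l ^ 2) := by positivity
  have h5 : (b - a) * ((∫ t in a..b, g t ^ 2) - 2 * l * m + (b - a) * l ^ 2) =
    (b - a) * (∫ t in a..b, g t ^ 2) - 2 * (l * (b - a)) * m + (l * (b - a)) ^ 2 := by ring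
  rw [h5, h3] at h4
  nlinarith

theorem prim_cont {f : ℝ → ℝ} (hf : IntegrableOn f (Ioi 0)) :
    ContinuousOn (fun t => ∫ τ in (0 : ℝ)..t, f τ) (Ici 0) := by
  intro t ht
  have ht0 : (0 : ℝ) ≤ t := ht
  have h1 : ContinuousOn (fun t => ∫ τ in (0 : ℝ)..t, f τ) (uIcc 0 (t + 1)) := by
    refine intervalIntegral.continuousOn_primitive_interval ?_
    rw [uIcc_of_le (by linarith), integrableOn_Icc_iff_integrableOn_Ioc]
    exact hf.mono_set Ioc_subset_Ioi_self
  rw [uIcc_of_le (by linarith)] at h1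
  refine (h1 t ⟨ht0, by linarith⟩).mono_of_mem_nhdsWithin ?_
  have h2 : Iio (t + 1) ∈ 𝓝 t := Iio_mem_nhds (by linarith)
  filter_upwards [self_mem_nhdsWithin, mem_nhdsWithin_of_mem_nhds h2] with τ k1 k2
  exact ⟨k1, le_of_lt k2⟩

theorem Vg_cont {g : ℝ → ℝ} (hg : MemLp g 2 (volume.restrict (Ioi 0))) :
    ContinuousOn (Vg g) (Ici 0) := by
  intro t ht
  have ht0 : (0 : ℝ) ≤ t := ht
  have h1 : ContinuousOn (fun t => ∫ τ in (0 : ℝ)..t, g τ) (uIcc 0 (t + 1)) := by
    refine intervalIntegral.continuousOn_primitive_interval ?_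
    rw [uIcc_of_le (by linarith), integrableOn_Icc_iff_integrableOn_Ioc,
        ← intervalIntegrable_iff_integrableOn_Ioc_of_le (by linarith)]
    exact memLp_ii hg le_rfl (by linarith)
  rw [uIcc_of_le (by linarith)] at h1
  refine (h1 t ⟨ht0, by linarith⟩).mono_of_mem_nhdsWithin ?_
  have h2 : Iio (t + 1) ∈ 𝓝 t := Iio_mem_nhds (by linarith)
  filter_upwards [self_mem_nhdsWithin, mem_nhdsWithin_of_mem_nhds h2] with τ k1 k2
  exact ⟨k1, le_of_lt k2⟩

theorem tail_zero {f : ℝ → ℝ} (hf : IntegrableOn f (Ioi 0)) :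
    Tendsto (fun t => ∫ τ in Ioi t, f τ) atTop (𝓝 0) := by
  have h1 := intervalIntegral_tendsto_integral_Ioi 0 hf tendsto_id
  have h2 : Tendsto (fun t => (∫ τ in Ioi (0 : ℝ), f τ) - ∫ τ in (0 : ℝ)..t, f τ) atTop (𝓝 0) := by
    simpa using h1.const_sub (∫ τ in Ioi (0 : ℝ), f τ)
  refine h2.congr' ?_
  filter_upwards [eventually_ge_atTop 0] with t ht
  have := intervalIntegral.integral_Ioi_sub_Ioi (μ := volume) hf ht
  linarith

theorem Vg_lim {g : ℝ → ℝ} (hg : Adm g) : Tendsto (Vg g) atTop (𝓝 0) := by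
  have i1 : IntegrableOn (fun t => g t ^ 2) (Ioi 0) := hg.mem.integrable_sq
  have i2 : IntegrableOn (fun t => Vg g t ^ 2) (Ioi 0) := hg.memV.integrable_sq
  have key : ∀ t, 0 ≤ t → Vg g t ^ 2 ≤ 2 * (∫ τ in Ioi t, Vg g τ ^ 2) +
      2 * ∫ τ in Ioi t, g τ ^ 2 := by
    intro t ht
    have s1 : Ioi t ⊆ Ioi (0 : ℝ) := Ioi_subset_Ioi ht
    have h1 : ∀ τ ∈ Icc t (t + 1), Vg g t ^ 2 ≤ 2 * Vg g τ ^ 2 + 2 * ∫ σ in Ioi t, g σ ^ 2 := by
      intro τ hτ
      have h2 := cs_interval hg.mem ht hτ.1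
      have h3 : ∫ σ in t..τ, g σ ^ 2 ≤ ∫ σ in Ioi t, g σ ^ 2 := by
        rw [intervalIntegral.integral_of_le hτ.1]
        refine setIntegral_mono_set (i1.mono_set s1)
          (Eventually.of_forall (fun σ => sq_nonneg _)) ?_
        exact (Ioc_subset_Ioi_self).eventuallyLE
      have h4 : 0 ≤ ∫ σ in t..τ, g σ ^ 2 :=
        intervalIntegral.integral_nonneg hτ.1 (fun _ _ => sq_nonneg _)
      have h5 : (τ - t) * ∫ σ in t..τ, g σ ^ 2 ≤ ∫ σ in Ioi t, g σ ^ 2 := by
        have : τ - t ≤ 1 := by linarith [hτ.2]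
        nlinarith
      nlinarith [sq_nonneg (Vg g t - 2 * Vg g τ), sq_nonneg (Vg g t)]
    have h6 : ∫ τ in t..(t + 1), Vg g t ^ 2 ≤ ∫ τ in t..(t + 1), (2 * Vg g τ ^ 2 +
        2 * ∫ σ in Ioi t, g σ ^ 2) := by
      refine intervalIntegral.integral_mono_on (by linarith) intervalIntegrable_const ?_ h1
      exact ((sq_ii hg.memV ht (by linarith)).const_mul 2).add intervalIntegrable_const
    rw [intervalIntegral.integral_add ((sq_ii hg.memV ht (by linarith)).const_mul 2)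
      intervalIntegrable_const, intervalIntegral.integral_const,
      intervalIntegral.integral_const, intervalIntegral.integral_const_mul] at h6
    have h7 : ∫ τ in t..(t + 1), Vg g τ ^ 2 ≤ ∫ τ in Ioi t, Vg g τ ^ 2 := by
      rw [intervalIntegral.integral_of_le (by linarith)]
      refine setIntegral_mono_set (i2.mono_set s1)
        (Eventually.of_forall (fun σ => sq_nonneg _)) ?_
      exact (Ioc_subset_Ioi_self).eventuallyLE
    simp only [add_sub_cancel_left, one_smul] at h6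
    linarith
  have h1 : Tendsto (fun t => 2 * (∫ τ in Ioi t, Vg g τ ^ 2) +
      2 * ∫ τ in Ioi t, g τ ^ 2) atTop (𝓝 0) := by
    simpa using ((tail_zero i2).const_mul 2).add ((tail_zero i1).const_mul 2)
  have h2 : Tendsto (fun t => Vg g t ^ 2) atTop (𝓝 0) := by
    refine squeeze_zero' (Eventually.of_forall (fun t => sq_nonneg _)) ?_ h1
    filter_upwards [eventually_ge_atTop 0] with t ht
    exact key t ht
  have h3 : Tendsto (fun t => √(Vg g t ^ 2)) atTop (𝓝 0) := by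
    simpa using h2.sqrt
  refine (tendsto_zero_iff_abs_tendsto_zero _).2 ?_
  refine h3.congr (fun t => ?_)
  exact Real.sqrt_sq_eq_abs _

/-- Module ADM. -/
theorem ADM : T_adm := by
  intro g hg
  have i1 : IntegrableOn (fun t => g t ^ 2) (Ioi 0) := hg.mem.integrable_sq
  have i2 : IntegrableOn (fun t => Vg g t ^ 2) (Ioi 0) := hg.memV.integrable_sq
  have Vcont := Vg_cont hg.mem
  have V0 : Vg g 0 = 0 := by simp [Vg]
  set G := ∫ τ in Ioi (0 : ℝ), g τ ^ 2 with hG
  have hG0 : 0 ≤ G := setIntegral_nonneg measurableSet_Ioi (fun t _ => sq_nonneg _)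
  have Vbd : ∀ t, 0 ≤ t → Vg g t ^ 2 ≤ t * G := by
    intro t ht
    have h1 := cs_interval hg.mem le_rfl ht
    rw [V0, sub_zero, sub_zero] at h1
    refine h1.trans ?_
    have h3 : ∫ σ in (0 : ℝ)..t, g σ ^ 2 ≤ G := by
      rw [intervalIntegral.integral_of_le ht]
      refine setIntegral_mono_set i1 (Eventually.of_forall (fun σ => sq_nonneg _)) ?_
      exact (Ioc_subset_Ioi_self).eventuallyLE
    gcongr
  have S0 : Sf (Vg g) 0 = 0 := by simp [Sf]
  have Scont : ContinuousOn (Sf (Vg g)) (Ici 0) := continuousOn_const.mul (prim_cont i2)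
  have iV : ∀ a b, 0 ≤ a → a ≤ b → IntervalIntegrable (fun t => Vg g t ^ 2) volume a b :=
    fun a b ha hab => sq_ii hg.memV ha hab
  have Sder : ∀ t, 0 < t → HasDerivAt (Sf (Vg g)) (4 * π * Vg g t ^ 2) t := by
    intro t ht
    have c1 : ContinuousOn (fun t => Vg g t ^ 2) (Ioi 0) := (Vcont.mono Ioi_subset_Ici_self).pow 2
    have h1 : HasDerivAt (fun t => ∫ τ in (0 : ℝ)..t, Vg g τ ^ 2) (Vg g t ^ 2) t := by
      refine intervalIntegral.integral_hasDerivAt_right (iV 0 t le_rfl ht.le) ?_ ?_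
      · exact c1.stronglyMeasurableAtFilter isOpen_Ioi t ht
      · exact c1.continuousAt (isOpen_Ioi.mem_nhds ht)
    exact h1.const_mul (4 * π)
  have Smono : MonotoneOn (Sf (Vg g)) (Ici 0) := by
    intro a ha b hb hab
    have h1 := intervalIntegral.integral_add_adjacent_intervals (iV 0 a le_rfl ha)
      (iV a b ha hab)
    have h2 : 0 ≤ ∫ t in a..b, Vg g t ^ 2 :=
      intervalIntegral.integral_nonneg hab (fun _ _ => sq_nonneg _)
    simp only [Sf]
    rw [← h1]
    have : 0 ≤ 4 * π * ∫ t in a..b, Vg g t ^ 2 := by positivity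
    linarith
  have Snn : ∀ t, 0 ≤ t → 0 ≤ Sf (Vg g) t := by
    intro t ht
    have := Smono self_mem_Ici ht ht
    rwa [S0] at this
  have Sle : ∀ t, 0 ≤ t → Sf (Vg g) t ≤ Mf (Vg g) := by
    intro t ht
    simp only [Sf, Mf]
    rw [intervalIntegral.integral_of_le ht]
    have : ∫ τ in Ioc 0 t, Vg g τ ^ 2 ≤ ∫ τ in Ioi 0, Vg g τ ^ 2 := by
      refine setIntegral_mono_set i2 (Eventually.of_forall (fun σ => sq_nonneg _)) ?_
      exact (Ioc_subset_Ioi_self).eventuallyLE
    gcongr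
  have Slim : Tendsto (Sf (Vg g)) atTop (𝓝 (Mf (Vg g))) :=
    (intervalIntegral_tendsto_integral_Ioi 0 i2 tendsto_id).const_mul (4 * π)
  have Sbd : ∀ t, 0 ≤ t → Sf (Vg g) t ≤ 2 * π * t ^ 2 * G := by
    intro t ht
    have h1 : ∫ τ in (0 : ℝ)..t, Vg g τ ^ 2 ≤ ∫ τ in (0 : ℝ)..t, τ * G := by
      refine intervalIntegral.integral_mono_on ht (iV 0 t le_rfl ht) ?_ (fun τ hτ => Vbd τ hτ.1)
      exact (continuous_id.mul continuous_const).intervalIntegrable _ _
    rw [intervalIntegral.integral_mul_const, integral_id] at h1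
    simp only [Sf]
    calc 4 * π * ∫ τ in (0 : ℝ)..t, Vg g τ ^ 2 ≤ 4 * π * ((t ^ 2 - 0 ^ 2) / 2 * G) := by gcongr
      _ = _ := by ring
  have hM0 : 0 ≤ Mf (Vg g) := (Snn 0 le_rfl).trans (Sle 0 le_rfl)
  have hIoi : Ioi (0 : ℝ) = Ioc 0 1 ∪ Ioi 1 := (Ioc_union_Ioi_eq_Ioi zero_le_one).symm
  have smeas : ∀ (x : ℝ), 0 ≤ x → ContinuousOn (fun t => Sf (Vg g) t / (x + t) ^ 2) (Ioi 0) := by
    intro x hx
    refine (Scont.mono Ioi_subset_Ici_self).div (by fun_prop) ?_
    intro t ht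
    have : 0 < t := ht
    positivity
  have near : ∀ x, 0 ≤ x → ∀ t, 0 < t → Sf (Vg g) t / (x + t) ^ 2 ≤ 2 * π * G := by
    intro x hx t ht
    rw [div_le_iff₀ (by positivity)]
    refine (Sbd t ht.le).trans ?_
    have h1 : t ^ 2 ≤ (x + t) ^ 2 := by gcongr; linarith
    have h2 : 0 ≤ 2 * π * G := by positivity
    nlinarith
  have int1 : ∀ x, 0 ≤ x → IntegrableOn (fun t => Sf (Vg g) t / (x + t) ^ 2) (Ioi 0) := by
    intro x hx
    have hm : AEStronglyMeasurable (fun t => Sf (Vg g) t / (x + t) ^ 2)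
      (volume.restrict (Ioi 0)) := (smeas x hx).aestronglyMeasurable measurableSet_Ioi
    rw [hIoi]
    refine IntegrableOn.union ?_ ?_
    · refine Integrable.mono' (g := fun _ => 2 * π * G) (integrable_const _)
        (hm.mono_set Ioc_subset_Ioi_self) ?_
      filter_upwards [ae_restrict_mem measurableSet_Ioc] with t ht
      have h1 := Snn t ht.1.le
      rw [norm_eq_abs, abs_of_nonneg (by positivity)]
      exact near x hx t ht.1
    · have hs : Ioi (1 : ℝ) ⊆ Ioi 0 := Ioi_subset_Ioi zero_le_one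
      refine Integrable.mono' (((int_inv_sq x 1 hx one_pos).1).const_mul (Mf (Vg g)))
        (hm.mono_set hs) ?_
      filter_upwards [ae_restrict_mem measurableSet_Ioi] with t ht
      have ht0 : 0 < t := hs ht
      have h1 := Snn t ht0.le
      have h2 := Sle t ht0.le
      rw [norm_eq_abs, abs_of_nonneg (by positivity), mul_one_div]
      gcongr
  have int2 : ∀ x, 0 ≤ x → IntegrableOn (fun t => Sf (Vg g) t ^ 2 / (x + t) ^ 2) (Ioi 0) := by
    intro x hx
    refine Integrable.mono' ((int1 x hx).const_mul (Mf (Vg g))) ?_ ?_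
    · refine ContinuousOn.aestronglyMeasurable ?_ measurableSet_Ioi
      refine ((Scont.mono Ioi_subset_Ici_self).pow 2).div (by fun_prop) ?_
      intro t ht
      have : 0 < t := ht
      positivity
    · filter_upwards [ae_restrict_mem measurableSet_Ioi] with t ht
      have ht0 : 0 < t := ht
      have h1 := Snn t ht0.le
      have h2 := Sle t ht0.le
      rw [norm_eq_abs, abs_of_nonneg (by positivity)]
      calc Sf (Vg g) t ^ 2 / (x + t) ^ 2 = Sf (Vg g) t * (Sf (Vg g) t / (x + t) ^ 2) := by ring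
        _ ≤ Mf (Vg g) * (Sf (Vg g) t / (x + t) ^ 2) := by gcongr
  have attbd : ∀ x, 0 ≤ x → att x g ≤ 2 * π * G + 1 / 2 := by
    intro x hx
    have i3 : IntegrableOn (fun t => (Sf (Vg g) t - Sf (Vg g) t ^ 2 / 2) / (x + t) ^ 2)
        (Ioi 0) := by
      have h1 : IntegrableOn (fun t => Sf (Vg g) t / (x + t) ^ 2 -
          1 / 2 * (Sf (Vg g) t ^ 2 / (x + t) ^ 2)) (Ioi 0) := (int1 x hx).sub
            ((int2 x hx).const_mul (1 / 2))
      refine h1.congr (Eventually.of_forall (fun t => ?_))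
      simp only
      ring
    have hs : Ioi (1 : ℝ) ⊆ Ioi 0 := Ioi_subset_Ioi zero_le_one
    have e1 : att x g = (∫ t in Ioc (0 : ℝ) 1, (Sf (Vg g) t - Sf (Vg g) t ^ 2 / 2) / (x + t) ^ 2)
        + ∫ t in Ioi (1 : ℝ), (Sf (Vg g) t - Sf (Vg g) t ^ 2 / 2) / (x + t) ^ 2 := by
      simp only [att]
      rw [hIoi]
      refine setIntegral_union (Ioc_disjoint_Ioi le_rfl) measurableSet_Ioi
        (i3.mono_set Ioc_subset_Ioi_self) (i3.mono_set hs)
    have e2 : ∫ t in Ioc (0 : ℝ) 1, (Sf (Vg g) t - Sf (Vg g) t ^ 2 / 2) / (x + t) ^ 2 ≤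
        2 * π * G := by
      have h1 : ∫ t in Ioc (0 : ℝ) 1, (Sf (Vg g) t - Sf (Vg g) t ^ 2 / 2) / (x + t) ^ 2 ≤
          ∫ t in Ioc (0 : ℝ) 1, 2 * π * G := by
        refine setIntegral_mono_on (i3.mono_set Ioc_subset_Ioi_self)
          (integrable_const _) measurableSet_Ioc (fun t ht => ?_)
        have h2 := near x hx t ht.1
        have h3 : (Sf (Vg g) t - Sf (Vg g) t ^ 2 / 2) / (x + t) ^ 2 ≤
            Sf (Vg g) t / (x + t) ^ 2 := by
          gcongr
          nlinarith [sq_nonneg (Sf (Vg g) t)]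
        exact h3.trans h2
      refine h1.trans (le_of_eq ?_)
      simp
    have e3 : ∫ t in Ioi (1 : ℝ), (Sf (Vg g) t - Sf (Vg g) t ^ 2 / 2) / (x + t) ^ 2 ≤ 1 / 2 := by
      have h0 := int_inv_sq x 1 hx one_pos
      have h1 : ∫ t in Ioi (1 : ℝ), (Sf (Vg g) t - Sf (Vg g) t ^ 2 / 2) / (x + t) ^ 2 ≤
          ∫ t in Ioi (1 : ℝ), 1 / 2 * (1 / (x + t) ^ 2) := by
        refine setIntegral_mono_on (i3.mono_set hs)
          (h0.1.const_mul _) measurableSet_Ioi (fun t ht => ?_)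
        rw [mul_one_div]
        gcongr
        nlinarith [sq_nonneg (Sf (Vg g) t - 1)]
      refine h1.trans ?_
      rw [integral_const_mul, h0.2]
      have : 1 / (x + 1) ≤ 1 := by
        rw [div_le_one (by positivity)]; linarith
      linarith
    rw [e1]
    linarith
  refine ⟨i1, i2, Vcont, V0, Vbd, Vg_lim hg, S0, Scont, Sder, Smono, Snn, Sle, Slim, Sbd,
    int1, int2, attbd, ?_⟩
  intro x ell hx
  have h1 := attbd x hx
  simp only [J, kin]
  rw [← hG]
  linarith

end Pool.Agent.H36.HM
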