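import Pool.Agent.H36.HM.ADM
import Pool.Agent.H99.TF.Coul

/-! Module ATT: the function of an exterior solution at `x = 0` is a minimiser. -/

namespace Pool.Agent.H36.HM

open MeasureTheory Set Filter Topology Real
open scoped ENNReal
open Pool.Agent.H99.HM

/-- The screened potential. -/
noncomputable def Bf (s : ℝ → ℝ) (r : ℝ) : ℝ := ∫ t in Ioi r, Sf s t / t ^ 2

theorem adm_ext (hF : T_facts) {x ell : ℝ} {s s1 : ℝ → ℝ} (h : Ext x ell s s1) : Adm s1 := by
  have fa := hF x ell s s1 h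
  refine ⟨?_, ?_⟩
  · refine (memLp_two_iff_integrable_sq ?_).2 h.int1
    exact (h.cont1.mono Ioi_subset_Ici_self).aestronglyMeasurable measurableSet_Ioi
  · have h1 : MemLp s 2 (volume.restrict (Ioi 0)) := by
      refine (memLp_two_iff_integrable_sq ?_).2 h.int0
      exact (fa.contS.mono Ioi_subset_Ici_self).aestronglyMeasurable measurableSet_Ioi
    refine h1.ae_eq ?_
    filter_upwards [ae_restrict_mem measurableSet_Ioi] with t ht
    exact (fa.vg t (le_of_lt ht)).symm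

theorem S_int (hF : T_facts) {s s1 : ℝ → ℝ} (h : Ext 0 0 s s1) :
    IntegrableOn (fun t => Sf s t / t ^ 2) (Ioi 0) := by
  have fa := hF 0 0 s s1 h
  have ha := ADM s1 (adm_ext hF h)
  refine (ha.int1 0 le_rfl).congr_fun (fun t ht => ?_) measurableSet_Ioi
  have ht' : 0 < t := ht
  simp only [zero_add]
  congr 1
  simp only [Sf]
  congr 1
  refine intervalIntegral.integral_congr (fun τ hτ => ?_)
  rw [uIcc_of_le ht'.le] at hτ
  rw [fa.vg τ hτ.1]

theorem phi_eq (hF : T_facts) {s s1 : ℝ → ℝ} (h : Ext 0 0 s s1) {r : ℝ} (hr : 0 < r) :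
    phi 0 s r = 1 / r - Bf s r := by
  have i1 := int_inv_sq 0 r le_rfl hr
  have i2 : IntegrableOn (fun t => Sf s t / t ^ 2) (Ioi r) :=
    (S_int hF h).mono_set (Ioi_subset_Ioi hr.le)
  have e1 : phi 0 s r = ∫ τ in Ioi r, (1 / (0 + τ) ^ 2 - Sf s τ / τ ^ 2) := by
    simp only [phi]
    refine integral_congr_ae (Eventually.of_forall (fun τ => ?_))
    simp only [zero_add]
    ring
  rw [e1, integral_sub i1.1 i2, i1.2, zero_add]
  rfl

theorem Bf_bd (hF : T_facts) {s s1 : ℝ → ℝ} (h : Ext 0 0 s s1) {r : ℝ} (hr : 0 < r) :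
    0 ≤ Bf s r ∧ Bf s r ≤ Bf s 0 := by
  have fa := hF 0 0 s s1 h
  have nn : ∀ t, 0 < t → 0 ≤ Sf s t / t ^ 2 := by
    intro t ht
    have := (fa.Spos t ht).le
    positivity
  refine ⟨setIntegral_nonneg measurableSet_Ioi (fun t ht => nn t (hr.trans ht)), ?_⟩
  refine setIntegral_mono_set (S_int hF h) ?_ ?_
  · filter_upwards [ae_restrict_mem measurableSet_Ioi] with t ht
    exact nn t ht
  · exact LE.le.eventuallyLE (Ioi_subset_Ioi hr.le)

theorem isH1_translate {v : E3 → ℂ} {G : Fin 3 → E3 → ℂ} (h : IsH1 v G) (a : E3) :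
    IsH1 (fun y => v (y + a)) (fun i y => G i (y + a)) := by
  have mp := measurePreserving_add_right (volume : Measure E3) a
  refine ⟨h.memLp.comp_measurePreserving mp, fun i => (h.memLp_grad i).comp_measurePreserving mp,
    fun i φ hφ => ?_⟩
  have h1 : IsTest (fun z => φ (z - a)) := by
    refine ⟨hφ.1.comp (contDiff_id.sub contDiff_const), ?_⟩
    exact hφ.2.comp_homeomorph (Homeomorph.subRight a)
  have h2 := h.weak i _ h1
  have h3 : ∀ z, pd i (fun z => φ (z - a)) z = pd i φ (z - a) := by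
    intro z
    simp only [pd]
    rw [fderiv_comp_sub]
  have e1 : ∫ y, v (y + a) * (pd i φ y : ℂ) = ∫ z, v z * (pd i (fun z => φ (z - a)) z : ℂ) := by
    rw [← integral_add_right_eq_self (fun z => v z * (pd i (fun z => φ (z - a)) z : ℂ)) a]
    refine integral_congr_ae (Eventually.of_forall (fun y => ?_))
    simp only [h3, add_sub_cancel_right]
  have e2 : ∫ y, G i (y + a) * (φ y : ℂ) = ∫ z, G i z * (φ (z - a) : ℂ) := by
    rw [← integral_add_right_eq_self (fun z => G i z * (φ (z - a) : ℂ)) a]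
    refine integral_congr_ae (Eventually.of_forall (fun y => ?_))
    simp only [add_sub_cancel_right]
  rw [e1, e2, h2]

/-- bound of the Hartree potential -/
theorem hart_bd (hF : T_facts) (hG : T_gs3) {s s1 : ℝ → ℝ} (hE : Ext 0 0 s s1)
    {v : E3 → ℂ} {G : Fin 3 → E3 → ℂ} (h : IsH1 v G) :
    ∃ K : ℝ, 0 ≤ K ∧ ∀ x : E3, Integrable (fun y => ‖v y‖ ^ 2 / ‖x - y‖) ∧ 0 ≤ hartree v x ∧
      hartree v x ≤ K := by
  have hsq : Integrable (fun y => ‖v y‖ ^ 2) := h.memLp.integrable_norm_pow (by norm_num)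
  set B0 := Bf s 0 with hB0
  have hB0' : 0 ≤ B0 := by
    have := Bf_bd hF hE one_pos
    linarith
  set Γ := ∫ x, ∑ i, ‖G i x‖ ^ 2 with hΓ
  have hΓ0 : 0 ≤ Γ := integral_nonneg (fun x => Finset.sum_nonneg (fun i _ => by positivity))
  have hm0 : 0 ≤ ∫ y, ‖v y‖ ^ 2 := integral_nonneg (fun x => by positivity)
  refine ⟨Γ + B0 * ∫ y, ‖v y‖ ^ 2, by positivity, fun x => ?_⟩
  obtain ⟨i1, i2, h3⟩ := hG s s1 hE _ _ (isH1_translate h x)
  have e0 : ∀ y : E3, ‖v (y + x)‖ ^ 2 / ‖y‖ = (fun z => ‖v z‖ ^ 2 / ‖x - z‖) (y + x) := by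
    intro y
    simp only
    rw [show x - (y + x) = -y by abel, norm_neg]
  have i3 : Integrable (fun z => ‖v z‖ ^ 2 / ‖x - z‖) := by
    rw [← (measurePreserving_add_right (volume : Measure E3) x).integrable_comp_emb
      (measurableEmbedding_addRight x)]
    exact i1.congr (Eventually.of_forall e0)
  have e1 : ∫ y, ‖v (y + x)‖ ^ 2 / ‖y‖ = hartree v x := by
    simp only [hartree]
    rw [← integral_add_right_eq_self (fun z => ‖v z‖ ^ 2 / ‖x - z‖) x]
    exact integral_congr_ae (Eventually.of_forall e0)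
  have e2 : ∫ y, ‖v (y + x)‖ ^ 2 = ∫ y, ‖v y‖ ^ 2 :=
    integral_add_right_eq_self (fun z => ‖v z‖ ^ 2) x
  have e3 : ∫ y, ∑ i, ‖G i (y + x)‖ ^ 2 = Γ :=
    integral_add_right_eq_self (fun z => ∑ i, ‖G i z‖ ^ 2) x
  have i4 : Integrable (fun y => ‖v (y + x)‖ ^ 2) :=
    (measurePreserving_add_right (volume : Measure E3) x).integrable_comp_of_integrable hsq
  refine ⟨i3, integral_nonneg (fun y => by positivity), ?_⟩
  rw [e3] at h3
  have e4 : ∫ y, (‖v (y + x)‖ ^ 2 / ‖y‖ - B0 * ‖v (y + x)‖ ^ 2) ≤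
      ∫ y, phi 0 s ‖y‖ * ‖v (y + x)‖ ^ 2 := by
    refine integral_mono_ae (i1.sub (i4.const_mul B0)) i2 ?_
    have hne : ∀ᵐ y : E3, y ≠ 0 := by
      rw [ae_iff]; simp
    filter_upwards [hne] with y hy
    have hy' : 0 < ‖y‖ := norm_pos_iff.2 hy
    rw [phi_eq hF hE hy']
    have h5 := (Bf_bd hF hE hy').2
    have h6 : 0 ≤ ‖v (y + x)‖ ^ 2 := by positivity
    have h7 : (1 / ‖y‖ - Bf s ‖y‖) * ‖v (y + x)‖ ^ 2 =
      ‖v (y + x)‖ ^ 2 / ‖y‖ - Bf s ‖y‖ * ‖v (y + x)‖ ^ 2 := by ring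
    rw [h7]
    have := mul_le_mul_of_nonneg_right h5 h6
    linarith
  rw [integral_sub i1 (i4.const_mul B0), integral_const_mul, e1, e2] at e4
  linarith

theorem hart_meas {v : E3 → ℂ} (hv : MemLp v 2 volume) :
    AEStronglyMeasurable (hartree v) volume := by
  have h1 : AEMeasurable (fun y => ‖v y‖ ^ 2) volume := (hv.1.norm.aemeasurable).pow_const 2
  have h2 : hartree v = fun x => ∫ y, h1.mk _ y / ‖x - y‖ := by
    funext x
    simp only [hartree]
    refine integral_congr_ae ?_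
    filter_upwards [h1.ae_eq_mk] with y hy
    rw [hy]
  rw [h2]
  have h3 : Measurable (fun p : E3 × E3 => h1.mk _ p.2 / ‖p.1 - p.2‖) := by
    have := h1.measurable_mk
    fun_prop
  exact (h3.stronglyMeasurable.integral_prod_right' (f := fun p : E3 × E3 =>
    h1.mk _ p.2 / ‖p.1 - p.2‖)).aestronglyMeasurable

theorem LC_congr {f f0 g g0 : E3 → ℝ≥0∞} (hf : f =ᵐ[volume] f0) (hg : g =ᵐ[volume] g0) :
    Pool.Agent.H29.TF.LC f g = Pool.Agent.H29.TF.LC f0 g0 := by
  unfold Pool.Agent.H29.TF.LC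
  refine lintegral_congr_ae ?_
  filter_upwards [hf] with x hx
  refine lintegral_congr_ae ?_
  filter_upwards [hg] with y hy
  rw [hx, hy]

theorem LC_hart {v w : E3 → ℂ} (hw : ∀ x : E3, Integrable (fun y => ‖w y‖ ^ 2 / ‖x - y‖)) :
    Pool.Agent.H29.TF.LC (fun x => ENNReal.ofReal (‖v x‖ ^ 2))
      (fun x => ENNReal.ofReal (‖w x‖ ^ 2)) =
      ∫⁻ x, ENNReal.ofReal (‖v x‖ ^ 2 * hartree w x) := by
  unfold Pool.Agent.H29.TF.LC
  refine lintegral_congr (fun x => ?_)
  have e1 : ∀ y : E3, ENNReal.ofReal (‖v x‖ ^ 2) * ENNReal.ofReal (‖w y‖ ^ 2) *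
      ENNReal.ofReal (1 / ‖x - y‖) = ENNReal.ofReal (‖v x‖ ^ 2) *
        ENNReal.ofReal (‖w y‖ ^ 2 / ‖x - y‖) := by
    intro y
    rw [mul_assoc, ← ENNReal.ofReal_mul (by positivity), mul_one_div]
  rw [lintegral_congr e1, lintegral_const_mul' _ _ ENNReal.ofReal_ne_top,
    ← ofReal_integral_eq_lintegral_ofReal (hw x) (Eventually.of_forall (fun y => by positivity)),
    ← ENNReal.ofReal_mul (by positivity)]
  rfl

/-- Module ATT. -/
theorem ATT (hF : T_facts) (hG : T_gs3) (hW : T_wh1) : T_att := by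
  intro s s1 hE
  obtain ⟨Gw, hw, mw, hhw, iw, ew, enw⟩ := hW s s1 hE
  refine ⟨wfun s, Gw, hw, mw, fun v G hv _ => ?_⟩
  rw [enw]
  set w := wfun s with hwdef
  set I := Iw 2 2 0 s with hI
  obtain ⟨K, hK0, hK⟩ := hart_bd hF hG hE hv
  obtain ⟨L, hL0, hL⟩ := hart_bd hF hG hE hw
  obtain ⟨i1, i2, h3⟩ := hG s s1 hE v G hv
  have hsq : Integrable (fun y => ‖v y‖ ^ 2) := hv.memLp.integrable_norm_pow (by norm_num)
  -- integrability of `|v|² hartree v`
  have mv := hart_meas hv.memLp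
  have mw' := hart_meas hw.memLp
  have ivv : Integrable (fun x => ‖v x‖ ^ 2 * hartree v x) := by
    refine (hsq.mul_const K).mono' (hsq.aestronglyMeasurable.mul mv)
      (Eventually.of_forall (fun x => ?_))
    have h4 := (hK x).2
    rw [norm_eq_abs, abs_of_nonneg (mul_nonneg (by positivity) h4.1)]
    exact mul_le_mul_of_nonneg_left h4.2 (by positivity)
  have ivw : Integrable (fun x => ‖v x‖ ^ 2 * hartree w x) := by
    refine (hsq.mul_const L).mono' (hsq.aestronglyMeasurable.mul mw')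
      (Eventually.of_forall (fun x => ?_))
    have h4 := (hL x).2
    rw [norm_eq_abs, abs_of_nonneg (mul_nonneg (by positivity) h4.1)]
    exact mul_le_mul_of_nonneg_left h4.2 (by positivity)
  have nvv : 0 ≤ ∫ x, ‖v x‖ ^ 2 * hartree v x :=
    integral_nonneg (fun x => mul_nonneg (by positivity) (hK x).2.1)
  have nvw : 0 ≤ ∫ x, ‖v x‖ ^ 2 * hartree w x :=
    integral_nonneg (fun x => mul_nonneg (by positivity) (hL x).2.1)
  have nww : 0 ≤ I := by
    rw [← ew]
    exact integral_nonneg (fun x => mul_nonneg (by positivity) (hL x).2.1)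
  -- positivity of the Coulomb form
  have pos : 2 * ∫ x, ‖v x‖ ^ 2 * hartree w x ≤ (∫ x, ‖v x‖ ^ 2 * hartree v x) + I := by
    have a1 : AEMeasurable (fun x => ENNReal.ofReal (‖v x‖ ^ 2)) (volume : Measure E3) :=
      ((hv.memLp.1.norm.aemeasurable).pow_const 2).ennreal_ofReal
    have a2 : AEMeasurable (fun x => ENNReal.ofReal (‖w x‖ ^ 2)) (volume : Measure E3) :=
      ((hw.memLp.1.norm.aemeasurable).pow_const 2).ennreal_ofReal
    have h5 := Pool.Agent.H29.TF.two_LC_le a1.measurable_mk a2.measurable_mk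
    rw [← LC_congr a1.ae_eq_mk a2.ae_eq_mk, ← LC_congr a1.ae_eq_mk a1.ae_eq_mk,
      ← LC_congr a2.ae_eq_mk a2.ae_eq_mk, LC_hart (fun x => (hL x).1),
      LC_hart (fun x => (hK x).1), LC_hart (fun x => (hL x).1)] at h5
    rw [← ofReal_integral_eq_lintegral_ofReal ivw
        (Eventually.of_forall (fun x => mul_nonneg (by positivity) (hL x).2.1)),
      ← ofReal_integral_eq_lintegral_ofReal ivv
        (Eventually.of_forall (fun x => mul_nonneg (by positivity) (hK x).2.1)),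
      ← ofReal_integral_eq_lintegral_ofReal iw
        (Eventually.of_forall (fun x => mul_nonneg (by positivity) (hL x).2.1)), ew,
      ← ENNReal.ofReal_add nvv nww] at h5
    have h6 : ENNReal.ofReal (2 * ∫ x, ‖v x‖ ^ 2 * hartree w x) ≤
        ENNReal.ofReal ((∫ x, ‖v x‖ ^ 2 * hartree v x) + I) := by
      rw [ENNReal.ofReal_mul (by norm_num)]
      refine le_trans (le_of_eq ?_) h5
      congr 1
      simp
    exact (ENNReal.ofReal_le_ofReal_iff (by positivity)).1 h6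
  -- the linear part
  have lin : (∫ x, ‖v x‖ ^ 2 / ‖x‖) - (∫ x, ‖v x‖ ^ 2 * hartree w x) =
      ∫ x, phi 0 s ‖x‖ * ‖v x‖ ^ 2 := by
    rw [← integral_sub i1 ivw]
    refine integral_congr_ae ?_
    have hne : ∀ᵐ y : E3, y ≠ 0 := by
      rw [ae_iff]; simp
    filter_upwards [hne] with y hy
    have hy' : 0 < ‖y‖ := norm_pos_iff.2 hy
    rw [phi_eq hF hE hy', hhw y hy, Bf]
    ring
  simp only [energy]
  linarith

end Pool.Agent.H36.HM
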