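import Pool.Agent.H36.HM.EL2

/-! Module EL3: minimisers are zero or exterior solutions. -/

namespace Pool.Agent.H36.HM

open MeasureTheory Set Filter Topology Real
open Pool.Agent.H99.HM
open scoped ContDiff

/-- `J` depends only on `g²` and `V_g²` on the half line. -/
theorem J_congr {x ell : ℝ} {g k : ℝ → ℝ} (h1 : ∀ t, 0 < t → g t ^ 2 = k t ^ 2)
    (h2 : ∀ t, 0 < t → Vg g t ^ 2 = Vg k t ^ 2) : J x ell g = J x ell k := by
  have e1 : kin g = kin k := by
    simp only [kin]
    rw [setIntegral_congr_fun measurableSet_Ioi (fun t ht => h1 t ht)]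
  have e2 : Mf (Vg g) = Mf (Vg k) := by
    simp only [Mf]
    rw [setIntegral_congr_fun measurableSet_Ioi (fun t ht => h2 t ht)]
  have e3 : ∀ t, 0 < t → Sf (Vg g) t = Sf (Vg k) t := by
    intro t ht
    simp only [Sf]
    rw [intervalIntegral.integral_of_le ht.le, intervalIntegral.integral_of_le ht.le,
      setIntegral_congr_fun measurableSet_Ioc (fun τ hτ => h2 τ hτ.1)]
  have e4 : att x g = att x k := by
    simp only [att]
    refine setIntegral_congr_fun measurableSet_Ioi (fun t ht => ?_)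
    have ht' : 0 < t := ht
    simp only [e3 t ht']
  simp only [J, e1, e2, e4]

/-- the reflected function -/
noncomputable def refl (g : ℝ → ℝ) (t1 : ℝ) : ℝ → ℝ :=
  fun t => (Iic t1).indicator g t - (Ioi t1).indicator g t

theorem refl_le (g : ℝ → ℝ) {t1 t : ℝ} (h : t ≤ t1) : refl g t1 t = g t := by
  have h1 : t ∈ Iic t1 := h
  have h2 : t ∉ Ioi t1 := not_lt.2 h
  simp only [refl, indicator_of_mem h1, indicator_of_notMem h2, sub_zero]

theorem refl_gt (g : ℝ → ℝ) {t1 t : ℝ} (h : t1 < t) : refl g t1 t = -g t := by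
  have h1 : t ∉ Iic t1 := not_le.2 h
  have h2 : t ∈ Ioi t1 := h
  simp only [refl, indicator_of_mem h2, indicator_of_notMem h1, zero_sub]

theorem Vg_refl_le (g : ℝ → ℝ) {t1 t : ℝ} (h0 : 0 < t1) (h : t ≤ t1) :
    Vg (refl g t1) t = Vg g t := by
  simp only [Vg]
  refine intervalIntegral.integral_congr (fun τ hτ => refl_le g ?_)
  have h1 := hτ.2
  exact h1.trans (max_le h0.le h)

theorem Vg_refl_gt {g : ℝ → ℝ} (hg : MemLp g 2 (volume.restrict (Ioi 0))) {t1 t : ℝ}
    (h0 : 0 < t1) (hz : Vg g t1 = 0) (h : t1 ≤ t) : Vg (refl g t1) t = -Vg g t := by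
  have m1 : MemLp (refl g t1) 2 (volume.restrict (Ioi 0)) :=
    (hg.indicator measurableSet_Iic).sub (hg.indicator measurableSet_Ioi)
  have k1 : IntervalIntegrable g volume 0 t1 := memLp_loc hg h0.le
  have k2 : IntervalIntegrable g volume t1 t := k1.symm.trans (memLp_loc hg (h0.le.trans h))
  have l1 : IntervalIntegrable (refl g t1) volume 0 t1 := memLp_loc m1 h0.le
  have l2 : IntervalIntegrable (refl g t1) volume t1 t :=
    l1.symm.trans (memLp_loc m1 (h0.le.trans h))
  have e1 := intervalIntegral.integral_add_adjacent_intervals k1 k2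
  have e2 := intervalIntegral.integral_add_adjacent_intervals l1 l2
  have e3 : ∫ τ in t1..t, refl g t1 τ = - ∫ τ in t1..t, g τ := by
    rw [← intervalIntegral.integral_neg, intervalIntegral.integral_of_le h,
      intervalIntegral.integral_of_le h]
    exact setIntegral_congr_fun measurableSet_Ioc (fun τ hτ => refl_gt g hτ.1)
  have e4 : ∫ τ in (0 : ℝ)..t1, refl g t1 τ = 0 := by
    have := Vg_refl_le g h0 (le_refl t1)
    simp only [Vg] at this hz
    rw [this, hz]
  simp only [Vg] at hz ⊢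
  rw [← e1, ← e2, e3, e4, hz]
  ring

theorem step1 (hA : T_adm) (hE : T_EL2) (hO : T_ode) {x ell : ℝ} {g : ℝ → ℝ} (hx : 0 ≤ x)
    (hl : 0 ≤ ell) (hmin : IsMin x ell g) {t1 : ℝ} (h1 : 0 < t1) (hz : Vg g t1 = 0) :
    ∀ t, 0 ≤ t → Vg g t = 0 := by
  obtain ⟨hg, hm⟩ := id hmin
  have hg' := hA g hg
  have sq : ∀ t, 0 < t → Vg (refl g t1) t ^ 2 = Vg g t ^ 2 := by
    intro t ht
    rcases le_total t t1 with h | h
    · rw [Vg_refl_le g h1 h]
    · rw [Vg_refl_gt hg.mem h1 hz h, neg_sq]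
  have sq1 : ∀ t, 0 < t → refl g t1 t ^ 2 = g t ^ 2 := by
    intro t ht
    rcases le_or_gt t t1 with h | h
    · rw [refl_le g h]
    · rw [refl_gt g h, neg_sq]
  have adm : Adm (refl g t1) := by
    refine ⟨(hg.mem.indicator measurableSet_Iic).sub (hg.mem.indicator measurableSet_Ioi), ?_⟩
    have k1 : MemLp (fun t => (Iic t1).indicator (Vg g) t - (Ioi t1).indicator (Vg g) t) 2
        (volume.restrict (Ioi 0)) :=
      (hg.memV.indicator measurableSet_Iic).sub (hg.memV.indicator measurableSet_Ioi)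
    refine k1.ae_eq ?_
    filter_upwards [ae_restrict_mem measurableSet_Ioi] with t ht
    rcases le_or_gt t t1 with h | h
    · rw [Vg_refl_le g h1 h]
      have h3 : t ∈ Iic t1 := h
      have h4 : t ∉ Ioi t1 := not_lt.2 h
      simp only [indicator_of_mem h3, indicator_of_notMem h4, sub_zero]
    · rw [Vg_refl_gt hg.mem h1 hz h.le]
      have h3 : t ∉ Iic t1 := not_le.2 h
      have h4 : t ∈ Ioi t1 := h
      simp only [indicator_of_mem h4, indicator_of_notMem h3, zero_sub]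
  have hmin2 : IsMin x ell (refl g t1) := by
    refine ⟨adm, fun h hh => ?_⟩
    rw [J_congr sq1 sq]
    exact hm h hh
  obtain ⟨v1, c1, a1, d1, e1⟩ := hE x ell g hx hl hmin
  obtain ⟨w1, c2, a2, d2, e2⟩ := hE x ell _ hx hl hmin2
  have l1 : HasDerivWithinAt (Vg (refl g t1)) (v1 t1) (Iic t1) t1 :=
    (d1 t1 h1).hasDerivWithinAt.congr (fun t ht => Vg_refl_le g h1 ht) (Vg_refl_le g h1 le_rfl)
  have l2 : HasDerivWithinAt (Vg (refl g t1)) (-v1 t1) (Ici t1) t1 :=
    (d1 t1 h1).neg.hasDerivWithinAt.congr (fun t ht => Vg_refl_gt hg.mem h1 hz ht)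
      (Vg_refl_gt hg.mem h1 hz le_rfl)
  have m1 := (uniqueDiffWithinAt_Iic t1).eq_deriv _ l1 (d2 t1 h1).hasDerivWithinAt
  have m2 := (uniqueDiffWithinAt_Ici t1).eq_deriv _ l2 (d2 t1 h1).hasDerivWithinAt
  have m3 : v1 t1 = 0 := by linarith
  obtain ⟨hd, hb, hM⟩ := phi_props hA hg hx
  have cc : ContinuousOn (fun t => ell - phi x (Vg g) t) (Ioi 0) := by
    have c1 : ContinuousOn (phi x (Vg g)) (Ioi 0) := fun t ht =>
      (hd t ht).continuousAt.continuousWithinAt
    exact continuousOn_const.sub c1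
  have key := hO _ _ _ t1 cc d1 e1 h1 hz m3
  intro t ht
  rcases eq_or_lt_of_le ht with h | h
  · rw [← h]; exact hg'.V0
  · exact (key t h).1

theorem step2 (hA : T_adm) (hE : T_EL2) {x ell : ℝ} {g : ℝ → ℝ} (hx : 0 ≤ x)
    (hl : 0 ≤ ell) (hmin : IsMin x ell g) (hpos : ∀ t, 0 < t → 0 < Vg g t) :
    ∃ s1, Ext x ell (Vg g) s1 ∧ kin s1 = kin g := by
  obtain ⟨hg, hm⟩ := id hmin
  have hg' := hA g hg
  obtain ⟨hd, hb, hM⟩ := phi_props hA hg hx
  obtain ⟨v1, c1, a1, d1, e1⟩ := hE x ell g hx hl hmin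
  set q : ℝ → ℝ := fun t => (ell - phi x (Vg g) t) * Vg g t with hq
  have cq : ContinuousOn q (Ioi 0) := by
    have c1 : ContinuousOn (phi x (Vg g)) (Ioi 0) := fun t ht =>
      (hd t ht).continuousAt.continuousWithinAt
    exact (continuousOn_const.sub c1).mul (hg'.Vcont.mono Ioi_subset_Ici_self)
  set G := ∫ τ in Ioi (0 : ℝ), g τ ^ 2 with hG
  have hG0 : 0 ≤ G := setIntegral_nonneg measurableSet_Ioi (fun t _ => sq_nonneg _)
  -- bound near zero
  have qb : ∀ t, 0 < t → t ≤ 1 → |q t| ≤ (ell + (1 + Mf (Vg g))) * √G * t ^ (-(1 / 2) : ℝ) := by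
    intro t ht ht1
    have h1 : |Vg g t| ≤ √t * √G := by
      rw [← Real.sqrt_mul ht.le]
      exact Real.abs_le_sqrt (hg'.Vbd t ht.le)
    have h2 : |ell - phi x (Vg g) t| ≤ (ell + (1 + Mf (Vg g))) / t := by
      have h3 := abs_sub (ell) (phi x (Vg g) t)
      have h4 := hb t ht
      have h5 : |ell| ≤ ell / t := by
        rw [abs_of_nonneg hl, le_div_iff₀ ht]
        nlinarith
      rw [add_div]
      linarith
    have h6 : t ^ (-(1 / 2) : ℝ) = √t / t := by
      rw [Real.sqrt_eq_rpow, ← Real.rpow_sub_one ht.ne']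
      norm_num
    rw [hq]
    simp only [abs_mul]
    rw [h6]
    calc |ell - phi x (Vg g) t| * |Vg g t| ≤ (ell + (1 + Mf (Vg g))) / t * (√t * √G) := by gcongr
      _ = _ := by ring
  have iq : ∀ t, 0 ≤ t → IntervalIntegrable q volume 0 t := by
    have i1 : IntervalIntegrable q volume 0 1 := by
      rw [intervalIntegrable_iff_integrableOn_Ioc_of_le zero_le_one]
      have i2 : IntegrableOn (fun t : ℝ => t ^ (-(1 / 2) : ℝ)) (Ioc 0 1) := by
        rw [← intervalIntegrable_iff_integrableOn_Ioc_of_le zero_le_one]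
        exact intervalIntegral.intervalIntegrable_rpow' (by norm_num)
      refine Integrable.mono' (i2.const_mul ((ell + (1 + Mf (Vg g))) * √G)) ?_ ?_
      · exact (cq.mono (fun t ht => ht.1)).aestronglyMeasurable measurableSet_Ioc
      · filter_upwards [ae_restrict_mem measurableSet_Ioc] with t ht
        exact qb t ht.1 ht.2
    intro t ht
    rcases eq_or_lt_of_le ht with h | h
    · rw [← h]
    · refine i1.trans ((cq.mono ?_).intervalIntegrable)
      intro τ hτ
      exact lt_of_lt_of_le (lt_min one_pos h) hτ.1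
  set L := v1 1 - ∫ τ in (0 : ℝ)..1, q τ with hL
  set s1 : ℝ → ℝ := fun t => L + ∫ τ in (0 : ℝ)..t, q τ with hs1
  have s1v : ∀ t, 0 < t → s1 t = v1 t := by
    intro t ht
    have h1 := intervalIntegral.integral_add_adjacent_intervals (iq 1 zero_le_one)
      ((iq 1 zero_le_one).symm.trans (iq t ht.le))
    have h2 : ∫ τ in (1 : ℝ)..t, q τ = v1 t - v1 1 := by
      refine intervalIntegral.integral_eq_sub_of_hasDerivAt (fun τ hτ => e1 τ ?_)
        ((iq 1 zero_le_one).symm.trans (iq t ht.le))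
      exact lt_of_lt_of_le (lt_min one_pos ht) hτ.1
    simp only [hs1, hL]
    rw [← h1, h2]
    ring
  have s1c : ContinuousOn s1 (Ici 0) := by
    refine continuousOn_const.add ?_
    intro t ht
    have ht0 : (0 : ℝ) ≤ t := ht
    have h1 : ContinuousOn (fun t => ∫ τ in (0 : ℝ)..t, q τ) (uIcc 0 (t + 1)) := by
      refine intervalIntegral.continuousOn_primitive_interval ?_
      rw [uIcc_of_le (by linarith), integrableOn_Icc_iff_integrableOn_Ioc,
        ← intervalIntegrable_iff_integrableOn_Ioc_of_le (by linarith)]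
      exact iq (t + 1) (by linarith)
    rw [uIcc_of_le (by linarith)] at h1
    refine (h1 t ⟨ht0, by linarith⟩).mono_of_mem_nhdsWithin ?_
    have h2 : Iio (t + 1) ∈ 𝓝 t := Iio_mem_nhds (by linarith)
    filter_upwards [self_mem_nhdsWithin, mem_nhdsWithin_of_mem_nhds h2] with τ k1 k2
    exact ⟨k1, le_of_lt k2⟩
  have ge : ∀ᵐ t ∂(volume.restrict (Ioi (0 : ℝ))), g t ^ 2 = s1 t ^ 2 := by
    filter_upwards [a1, ae_restrict_mem measurableSet_Ioi] with t h1 h2
    rw [h1, s1v t h2]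
  refine ⟨s1, ⟨hx, hl, hg'.V0, hpos, s1c, ?_, ?_, ?_, hg'.intV, ?_⟩, ?_⟩
  · refine hasDerivWithinAt_Ici_of_tendsto_deriv (s := Ioi 0) ?_ ?_ self_mem_nhdsWithin ?_
    · exact fun t ht => (d1 t ht).differentiableAt.differentiableWithinAt
    · exact (hg'.Vcont 0 self_mem_Ici).mono Ioi_subset_Ici_self
    · have h1 : Tendsto s1 (𝓝[>] 0) (𝓝 (s1 0)) :=
        (s1c 0 self_mem_Ici).mono_left (nhdsWithin_mono _ Ioi_subset_Ici_self)
      refine h1.congr' ?_
      filter_upwards [self_mem_nhdsWithin] with t ht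
      rw [(d1 t ht).deriv, s1v t ht]
  · intro t ht
    rw [s1v t ht]
    exact d1 t ht
  · intro t ht
    refine (e1 t ht).congr_of_eventuallyEq ?_
    filter_upwards [lt_mem_nhds ht] with τ hτ
    exact s1v τ hτ
  · exact hg'.intg.congr ge
  · simp only [kin]
    rw [integral_congr_ae ge]

theorem Vg_neg (g : ℝ → ℝ) (t : ℝ) : Vg (fun t => -g t) t = -Vg g t := by
  simp only [Vg]
  rw [intervalIntegral.integral_neg]

/-- Module EL3. -/
theorem EL3 (hA : T_adm) (hE : T_EL2) (hO : T_ode) : T_EL := by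
  intro x ell g hx hl hmin
  obtain ⟨hg, hm⟩ := id hmin
  have hg' := hA g hg
  by_cases hz : ∃ t1, 0 < t1 ∧ Vg g t1 = 0
  · obtain ⟨t1, h1, hz⟩ := hz
    exact Or.inl (step1 hA hE hO hx hl hmin h1 hz)
  · right
    push Not at hz
    have hsgn : (∀ t, 0 < t → 0 < Vg g t) ∨ (∀ t, 0 < t → Vg g t < 0) := by
      by_contra hcon
      push Not at hcon
      obtain ⟨⟨a, ha, ha2⟩, b, hb, hb2⟩ := hcon
      have hpc : IsPreconnected (Ioi (0 : ℝ)) := isPreconnected_Ioi
      obtain ⟨c, hc, hc2⟩ := hpc.intermediate_value (show a ∈ Ioi (0 : ℝ) from ha)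
        (show b ∈ Ioi (0 : ℝ) from hb) (hg'.Vcont.mono Ioi_subset_Ici_self)
        (show (0 : ℝ) ∈ Icc (Vg g a) (Vg g b) from ⟨ha2, hb2⟩)
      exact hz c hc hc2
    rcases hsgn with hp | hn
    · obtain ⟨s1, h1, h2⟩ := step2 hA hE hx hl hmin hp
      exact ⟨Vg g, s1, h1, h2, Or.inl (fun t _ => rfl)⟩
    · have hmin2 : IsMin x ell (fun t => -g t) := by
        refine ⟨⟨hg.mem.neg, ?_⟩, fun h hh => ?_⟩
        · have h1 : Vg (fun t => -g t) = -Vg g := by
            funext t; exact Vg_neg g t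
          rw [h1]; exact hg.memV.neg
        · rw [J_congr (k := g) (fun t _ => by ring) (fun t _ => by rw [Vg_neg, neg_sq])]
          exact hm h hh
      obtain ⟨s1, h1, h2⟩ := step2 hA hE hx hl hmin2
        (fun t ht => by rw [Vg_neg]; linarith [hn t ht])
      refine ⟨Vg (fun t => -g t), s1, h1, ?_, Or.inr (fun t _ => Vg_neg g t)⟩
      rw [h2]
      simp only [kin, neg_sq]

end Pool.Agent.H36.HM
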