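import Pool.Agent.H36.HM.ADM
import Mathlib.MeasureTheory.Integral.IntervalIntegral.AbsolutelyContinuousFun

/-! Module GS1: the one-dimensional ground state inequality. -/

namespace Pool.Agent.H36.HM

open MeasureTheory Set Filter Topology Real
open Pool.Agent.H99.HM

theorem ac_of_deriv {p p' : ℝ → ℝ} {a b : ℝ} (ha : 0 < a) (hab : a ≤ b)
    (hp : ∀ t, 0 < t → HasDerivAt p (p' t) t) (hp' : ContinuousOn p' (Ioi 0)) :
    AbsolutelyContinuousOnInterval p a b := by
  have h1 : ContDiffOn ℝ 1 p (Ioi 0) := by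
    rw [show (1 : WithTop ℕ∞) = 0 + 1 from rfl, contDiffOn_succ_iff_deriv_of_isOpen isOpen_Ioi]
    refine ⟨fun t ht => (hp t ht).differentiableAt.differentiableWithinAt, by simp, ?_⟩
    rw [contDiffOn_zero]
    exact hp'.congr (fun t ht => (hp t ht).deriv)
  have h2 : uIcc a b ⊆ Ioi 0 := by
    rw [uIcc_of_le hab]
    exact fun t ht => lt_of_lt_of_le ha ht.1
  exact (h1.mono h2).absolutelyContinuousOnInterval

theorem ac_parts {h p p' : ℝ → ℝ} (hh : MemLp h 2 (volume.restrict (Ioi 0))) {a b : ℝ}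
    (ha : 0 < a) (hab : a ≤ b)
    (hp : ∀ t, 0 < t → HasDerivAt p (p' t) t) (hp' : ContinuousOn p' (Ioi 0)) :
    ∫ t in a..b, (p' t * Vg h t ^ 2 + 2 * p t * (Vg h t * h t)) =
      p b * Vg h b ^ 2 - p a * Vg h a ^ 2 := by
  have hb : 0 ≤ b := ha.le.trans hab
  have i1 : IntervalIntegrable h volume 0 b := memLp_ii hh le_rfl hb
  have hsub : uIcc a b ⊆ uIcc 0 b := by
    rw [uIcc_of_le hab, uIcc_of_le hb]
    exact Icc_subset_Icc_left ha.le
  have hV : AbsolutelyContinuousOnInterval (Vg h) a b :=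
    (i1.absolutelyContinuousOnInterval_intervalIntegral left_mem_uIcc).mono hsub
  have hF : AbsolutelyContinuousOnInterval (fun t => p t * (Vg h t * Vg h t)) a b :=
    (ac_of_deriv ha hab hp hp').fun_mul (hV.fun_mul hV)
  have h1 := hF.integral_deriv_eq_sub
  have h2 : ∫ t in a..b, (p' t * Vg h t ^ 2 + 2 * p t * (Vg h t * h t)) =
      ∫ t in a..b, deriv (fun t => p t * (Vg h t * Vg h t)) t := by
    refine intervalIntegral.integral_congr_ae ?_
    filter_upwards [i1.ae_hasDerivAt_integral] with t ht ht2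
    have ht3 : t ∈ uIcc a b := uIoc_subset_uIcc ht2
    have ht4 := ht (hsub ht3) 0 left_mem_uIcc
    have ht5 : HasDerivAt (Vg h) (h t) t := ht4
    rw [uIcc_of_le hab] at ht3
    have ht6 := (hp t (lt_of_lt_of_le ha ht3.1)).fun_mul (ht5.fun_mul ht5)
    rw [ht6.deriv]
    ring
  rw [h2, h1]
  ring

theorem GS1 (hF : T_facts) (hA : T_adm) : T_gs1 := by
  intro x ell s s1 hE h hh
  have fa := hF x ell s s1 hE
  have ha := hA h hh
  obtain ⟨c, C, hc, hC, hnear⟩ := fa.near0
  obtain ⟨K, hK, hlog⟩ := fa.logder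
  have hM : 0 < Mf s := fa.mpos
  set V := Vg h with hV
  set H := ∫ τ in Ioi (0 : ℝ), h τ ^ 2 with hH
  have iH : IntegrableOn (fun t => h t ^ 2) (Ioi 0) := ha.intg
  have cphi : ContinuousOn (phi x s) (Ioi 0) := fun t ht =>
    (fa.phiDer t ht).continuousAt.continuousWithinAt
  have cV : ContinuousOn V (Ioi 0) := ha.Vcont.mono Ioi_subset_Ici_self
  have cs : ContinuousOn s (Ioi 0) := fa.contS.mono Ioi_subset_Ici_self
  have cs1 : ContinuousOn s1 (Ioi 0) := hE.cont1.mono Ioi_subset_Ici_self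
  have hx := hE.x0
  have hl := hE.l0
  -- integrability of `phi V²`
  have iphi : IntegrableOn (fun t => phi x s t * V t ^ 2) (Ioi 0) := by
    have hm : AEStronglyMeasurable (fun t => phi x s t * V t ^ 2) (volume.restrict (Ioi 0)) :=
      (cphi.mul (cV.pow 2)).aestronglyMeasurable measurableSet_Ioi
    have hIoi : Ioi (0 : ℝ) = Ioc 0 1 ∪ Ioi 1 := (Ioc_union_Ioi_eq_Ioi zero_le_one).symm
    have hb : ∀ t, 0 < t → |phi x s t| ≤ (1 + Mf s) / t := by
      intro t ht
      refine (fa.phiBd t ht).trans ?_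
      gcongr
      linarith
    rw [hIoi]
    refine IntegrableOn.union ?_ ?_
    · refine Integrable.mono' (g := fun _ => (1 + Mf s) * H) (integrable_const _)
        (hm.mono_set Ioc_subset_Ioi_self) ?_
      filter_upwards [ae_restrict_mem measurableSet_Ioc] with t ht
      have ht0 := ht.1
      rw [norm_eq_abs, abs_mul, abs_of_nonneg (sq_nonneg (V t))]
      calc |phi x s t| * V t ^ 2 ≤ (1 + Mf s) / t * (t * H) := by
            have := hb t ht0
            have := ha.Vbd t ht0.le
            gcongr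
        _ = _ := by field_simp
    · have hs : Ioi (1 : ℝ) ⊆ Ioi 0 := Ioi_subset_Ioi zero_le_one
      refine Integrable.mono' (g := fun t => (1 + Mf s) * V t ^ 2)
        ((ha.intV.mono_set hs).const_mul _) (hm.mono_set hs) ?_
      filter_upwards [ae_restrict_mem measurableSet_Ioi] with t ht
      have ht1 : (1 : ℝ) < t := ht
      have h1 := hb t (by linarith)
      have h5 : (1 + Mf s) / t ≤ 1 + Mf s := div_le_self (by linarith) ht1.le
      rw [norm_eq_abs, abs_mul, abs_of_nonneg (sq_nonneg (V t))]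
      have h6 := h1.trans h5
      gcongr
  have iall : IntegrableOn (fun t => (phi x s t - ell) * V t ^ 2) (Ioi 0) := by
    have h1 : IntegrableOn (fun t => phi x s t * V t ^ 2 - ell * V t ^ 2) (Ioi 0) :=
      iphi.sub (ha.intV.const_mul ell)
    refine h1.congr (Eventually.of_forall (fun t => ?_))
    simp only
    ring
  refine ⟨iphi, ?_⟩
  -- the logarithmic derivative
  set p : ℝ → ℝ := fun t => s1 t / s t with hp
  set p' : ℝ → ℝ := fun t => (ell - phi x s t) - p t ^ 2 with hp'
  have cp : ContinuousOn p (Ioi 0) := cs1.div cs (fun t ht => (hE.pos t ht).ne')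
  have cp' : ContinuousOn p' (Ioi 0) := (continuousOn_const.sub cphi).sub (cp.pow 2)
  have dp : ∀ t, 0 < t → HasDerivAt p (p' t) t := by
    intro t ht
    have hs := (hE.pos t ht).ne'
    refine ((hE.der1 t ht).fun_div (hE.der t ht) hs).congr_deriv ?_
    simp only [hp', hp]
    field_simp
  -- the inequality on [a,b]
  have ineq : ∀ a b, 0 < a → a ≤ b →
      ∫ t in a..b, (phi x s t - ell) * V t ^ 2 ≤ (∫ t in a..b, h t ^ 2) -
        (p b * V b ^ 2 - p a * V a ^ 2) := by
    intro a b ha0 hab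
    have hsub : uIcc a b ⊆ Ioi 0 := by
      rw [uIcc_of_le hab]
      exact fun t ht => lt_of_lt_of_le ha0 ht.1
    have j0 : IntervalIntegrable h volume a b := memLp_ii hh.mem ha0.le hab
    have j1 : IntervalIntegrable (fun t => h t ^ 2) volume a b := sq_ii hh.mem ha0.le hab
    have j2 : IntervalIntegrable (fun t => (phi x s t - ell) * V t ^ 2) volume a b :=
      (((cphi.sub continuousOn_const).mul (cV.pow 2)).mono hsub).intervalIntegrable
    have j3 : IntervalIntegrable (fun t => p' t * V t ^ 2 + 2 * p t * (V t * h t)) volume a b := by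
      refine IntervalIntegrable.add ?_ ?_
      · exact ((cp'.mul (cV.pow 2)).mono hsub).intervalIntegrable
      · have k1 : IntervalIntegrable (fun t => (2 * p t * V t) * h t) volume a b :=
          j0.continuousOn_mul (((continuousOn_const.mul cp).mul cV).mono hsub)
        refine k1.congr (fun t _ => ?_)
        ring
    have e1 := ac_parts hh.mem ha0 hab dp cp'
    have e2 : 0 ≤ ∫ t in a..b, (h t - p t * V t) ^ 2 :=
      intervalIntegral.integral_nonneg hab (fun _ _ => sq_nonneg _)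
    have e3 : ∫ t in a..b, (h t - p t * V t) ^ 2 = (∫ t in a..b, h t ^ 2) -
        (∫ t in a..b, (phi x s t - ell) * V t ^ 2) -
        ∫ t in a..b, (p' t * V t ^ 2 + 2 * p t * (V t * h t)) := by
      rw [← intervalIntegral.integral_sub j1 j2, ← intervalIntegral.integral_sub (j1.sub j2) j3]
      refine intervalIntegral.integral_congr (fun t _ => ?_)
      simp only [hp']
      ring
    rw [e3, e1] at e2
    linarith
  -- sequences
  have hinv : Tendsto (fun n : ℕ => (1 : ℝ) / ((n : ℝ) + 1)) atTop (𝓝 0) :=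
    tendsto_one_div_add_atTop_nhds_zero_nat
  have hinf : Tendsto (fun n : ℕ => (n : ℝ) + 1) atTop atTop :=
    tendsto_atTop_add_const_right _ _ tendsto_natCast_atTop_atTop
  have prim0 : ∀ f : ℝ → ℝ, IntegrableOn f (Ioi 0) →
      Tendsto (fun n : ℕ => ∫ t in (0 : ℝ)..(1 / ((n : ℝ) + 1)), f t) atTop (𝓝 0) := by
    intro f hf
    have h1 := (prim_cont hf) 0 self_mem_Ici
    have h2 : Tendsto (fun t => ∫ τ in (0 : ℝ)..t, f τ) (𝓝[Ici 0] 0) (𝓝 0) := by
      have : (fun t => ∫ τ in (0 : ℝ)..t, f τ) 0 = 0 := by simp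
      unfold ContinuousWithinAt at h1
      rwa [this] at h1
    refine h2.comp (tendsto_nhdsWithin_iff.2 ⟨hinv, Eventually.of_forall (fun n => ?_)⟩)
    rw [mem_Ici]; positivity
  have key : ∀ n : ℕ, (∫ t in (0 : ℝ)..((n : ℝ) + 1), (phi x s t - ell) * V t ^ 2) -
      (∫ t in (0 : ℝ)..(1 / ((n : ℝ) + 1)), (phi x s t - ell) * V t ^ 2) ≤
      H + K * V ((n : ℝ) + 1) ^ 2 +
        C / c * ∫ t in (0 : ℝ)..(1 / ((n : ℝ) + 1)), h t ^ 2 := by
    intro n
    set a := (1 : ℝ) / ((n : ℝ) + 1) with ha'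
    set b := (n : ℝ) + 1 with hb'
    have hb1 : 1 ≤ b := by rw [hb']; have := n.cast_nonneg (α := ℝ); linarith
    have ha0 : 0 < a := by positivity
    have ha1 : a ≤ 1 := by rw [ha', div_le_one (by positivity)]; exact hb1
    have hab : a ≤ b := ha1.trans hb1
    have h1 := ineq a b ha0 hab
    have h2 : (∫ t in (0 : ℝ)..b, (phi x s t - ell) * V t ^ 2) -
      (∫ t in (0 : ℝ)..a, (phi x s t - ell) * V t ^ 2) =
        ∫ t in a..b, (phi x s t - ell) * V t ^ 2 := by
      refine intervalIntegral.integral_interval_sub_left ?_ ?_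
      · rw [intervalIntegrable_iff_integrableOn_Ioc_of_le (by linarith)]
        exact iall.mono_set Ioc_subset_Ioi_self
      · rw [intervalIntegrable_iff_integrableOn_Ioc_of_le ha0.le]
        exact iall.mono_set Ioc_subset_Ioi_self
    have h3 : ∫ t in a..b, h t ^ 2 ≤ H := by
      rw [intervalIntegral.integral_of_le hab]
      refine setIntegral_mono_set iH (Eventually.of_forall (fun σ => sq_nonneg _)) ?_
      exact LE.le.eventuallyLE (fun t ht => ha0.trans ht.1)
    have h4 : -(p b * V b ^ 2) ≤ K * V b ^ 2 := by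
      have h5 : -p b ≤ K := by
        have h6 := hlog b hb1
        have h7 := hE.pos b (by linarith)
        rw [hp]
        simp only
        rw [← neg_div, div_le_iff₀ h7]
        exact (neg_le_abs _).trans h6
      nlinarith [sq_nonneg (V b)]
    have h5 : p a * V a ^ 2 ≤ C / c * ∫ t in (0 : ℝ)..a, h t ^ 2 := by
      obtain ⟨n1, n2, n3, n4⟩ := hnear a ⟨ha0.le, ha1⟩
      have n5 := hE.pos a ha0
      have n6 : p a ≤ C / (c * a) := by
        rw [hp]
        simp only
        rw [div_le_div_iff₀ n5 (by positivity)]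
        have n7 : s1 a ≤ C := (le_abs_self _).trans n3
        nlinarith [mul_pos hc ha0]
      have n8 := cs_interval hh.mem le_rfl ha0.le
      have V00 : V 0 = 0 := ha.V0
      rw [← hV, V00, sub_zero, sub_zero] at n8
      have n9 : 0 ≤ C / (c * a) := by positivity
      calc p a * V a ^ 2 ≤ C / (c * a) * V a ^ 2 := by gcongr
        _ ≤ C / (c * a) * (a * ∫ t in (0 : ℝ)..a, h t ^ 2) := by gcongr
        _ = _ := by field_simp
    rw [h2]
    linarith
  have lim1 : Tendsto (fun n : ℕ => (∫ t in (0 : ℝ)..((n : ℝ) + 1), (phi x s t - ell) * V t ^ 2) -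
      (∫ t in (0 : ℝ)..(1 / ((n : ℝ) + 1)), (phi x s t - ell) * V t ^ 2)) atTop
      (𝓝 ((∫ t in Ioi (0 : ℝ), (phi x s t - ell) * V t ^ 2) - 0)) :=
    (intervalIntegral_tendsto_integral_Ioi 0 iall hinf).sub (prim0 _ iall)
  have lim2 : Tendsto (fun n : ℕ => H + K * V ((n : ℝ) + 1) ^ 2 +
        C / c * ∫ t in (0 : ℝ)..(1 / ((n : ℝ) + 1)), h t ^ 2) atTop
      (𝓝 (H + K * 0 ^ 2 + C / c * 0)) :=
    ((((ha.Vlim.comp hinf).pow 2).const_mul K).const_add H).add ((prim0 _ iH).const_mul (C / c))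
  have := le_of_tendsto_of_tendsto' lim1 lim2 key
  simpa using this

end Pool.Agent.H36.HM
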