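import Pool.Agent.H99.HM.Targets

/-! Module UNIQ: uniqueness of exterior solutions. -/

namespace Pool.Agent.H36.HM

open MeasureTheory Set Filter Topology Real
open Pool.Agent.H99.HM

theorem Sf_congr {f k : ℝ → ℝ} {t : ℝ} (ht : 0 ≤ t) (h : ∀ τ, 0 ≤ τ → f τ = k τ) :
    Sf f t = Sf k t := by
  simp only [Sf]
  congr 1
  refine intervalIntegral.integral_congr (fun τ hτ => ?_)
  rw [uIcc_of_le ht] at hτ
  rw [h τ hτ.1]

/-- Module UNIQ. -/
theorem UNIQ (hF : T_facts) (hE : T_energy) (hM : T_min) : T_uniq := by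
  intro x ell s s1 r r1 hs hr
  have fs := hF x ell s s1 hs
  have fr := hF x ell r r1 hr
  have as := (hE x ell s s1 hs).1
  have ar := (hE x ell r r1 hr).1
  obtain ⟨i1, m1⟩ := hM x ell s s1 hs r1 ar
  obtain ⟨i2, m2⟩ := hM x ell r r1 hr s1 as
  have e1 : ∀ t, 0 < t → Sf (Vg r1) t = Sf r t := fun t ht => Sf_congr ht.le fr.vg
  have e2 : ∀ t, 0 < t → Sf (Vg s1) t = Sf s t := fun t ht => Sf_congr ht.le fs.vg
  have q1 : ∫ t in Ioi (0 : ℝ), (Sf (Vg r1) t - Sf s t) ^ 2 / (x + t) ^ 2 =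
      ∫ t in Ioi (0 : ℝ), (Sf r t - Sf s t) ^ 2 / (x + t) ^ 2 := by
    refine setIntegral_congr_fun measurableSet_Ioi (fun t ht => ?_)
    have ht' : 0 < t := ht
    simp only [e1 t ht']
  have q2 : ∫ t in Ioi (0 : ℝ), (Sf (Vg s1) t - Sf r t) ^ 2 / (x + t) ^ 2 =
      ∫ t in Ioi (0 : ℝ), (Sf r t - Sf s t) ^ 2 / (x + t) ^ 2 := by
    refine setIntegral_congr_fun measurableSet_Ioi (fun t ht => ?_)
    have ht' : 0 < t := ht
    simp only [e2 t ht']
    ring
  rw [q1] at m1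
  rw [q2] at m2
  have i3 : IntegrableOn (fun t => (Sf r t - Sf s t) ^ 2 / (x + t) ^ 2) (Ioi 0) := by
    refine i1.congr_fun (fun t ht => ?_) measurableSet_Ioi
    have ht' : 0 < t := ht
    simp only [e1 t ht']
  have nn : ∀ t, 0 ≤ (Sf r t - Sf s t) ^ 2 / (x + t) ^ 2 := fun t => by positivity
  have z : ∫ t in Ioi (0 : ℝ), (Sf r t - Sf s t) ^ 2 / (x + t) ^ 2 = 0 := by
    have : 0 ≤ ∫ t in Ioi (0 : ℝ), (Sf r t - Sf s t) ^ 2 / (x + t) ^ 2 :=
      integral_nonneg nn
    linarith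
  have z2 := (integral_eq_zero_iff_of_nonneg nn i3).1 z
  have hx := hs.x0
  have cS : ContinuousOn (fun t => (Sf r t - Sf s t) ^ 2 / (x + t) ^ 2) (Ioi 0) := by
    refine (((fr.Scont.sub fs.Scont).mono Ioi_subset_Ici_self).pow 2).div (by fun_prop) ?_
    intro t ht
    have : 0 < t := ht
    positivity
  have z3 := MeasureTheory.Measure.eqOn_open_of_ae_eq z2 isOpen_Ioi cS continuousOn_const
  have z4 : ∀ t, 0 < t → Sf r t = Sf s t := by
    intro t ht
    have h1 := z3 ht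
    simp only [Pi.zero_apply] at h1
    rw [div_eq_zero_iff] at h1
    rcases h1 with h1 | h1
    · have := pow_eq_zero_iff (two_ne_zero) |>.1 h1
      linarith
    · exfalso
      have : 0 < (x + t) ^ 2 := by positivity
      linarith
  have z5 : ∀ t, 0 < t → s t = r t := by
    intro t ht
    have d1 := fr.Sder t ht
    have d2 : HasDerivAt (Sf r) (4 * π * s t ^ 2) t := by
      refine (fs.Sder t ht).congr_of_eventuallyEq ?_
      filter_upwards [lt_mem_nhds ht] with τ hτ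
      exact z4 τ hτ
    have h1 := d1.unique d2
    have hpi : 0 < 4 * π := by positivity
    have h2 : r t ^ 2 = s t ^ 2 := mul_left_cancel₀ hpi.ne' h1
    have p1 := hs.pos t ht
    have p2 := hr.pos t ht
    nlinarith
  have z6 : ∀ t, 0 ≤ t → s t = r t := by
    intro t ht
    rcases eq_or_lt_of_le ht with h | h
    · rw [← h, hs.zero, hr.zero]
    · exact z5 t h
  intro t ht
  refine ⟨z6 t ht, ?_⟩
  rcases eq_or_lt_of_le ht with h | h
  · rw [← h]
    have d1 := hs.der0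
    have d2 : HasDerivWithinAt s (r1 0) (Ici 0) 0 :=
      hr.der0.congr (fun τ hτ => z6 τ hτ) (z6 0 le_rfl)
    exact (uniqueDiffWithinAt_Ici 0).eq_deriv _ d1 d2
  · have d1 := hs.der t h
    have d2 : HasDerivAt s (r1 t) t := by
      refine (hr.der t h).congr_of_eventuallyEq ?_
      filter_upwards [lt_mem_nhds h] with τ hτ
      exact z5 τ hτ
    exact d1.unique d2

end Pool.Agent.H36.HM
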