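import Pool.Agent.H36.HM.Phi

/-! Module EL1: the weak Euler Lagrange equation. -/

namespace Pool.Agent.H36.HM

open MeasureTheory Set Filter Topology Real
open Pool.Agent.H99.HM

theorem memLp_loc {g : ℝ → ℝ} (hg : MemLp g 2 (volume.restrict (Ioi 0))) {t : ℝ} (ht : 0 ≤ t) :
    IntervalIntegrable g volume 0 t := by
  rw [intervalIntegrable_iff_integrableOn_Ioc_of_le ht]
  exact (hg.mono_measure (Measure.restrict_mono Ioc_subset_Ioi_self le_rfl)).integrable
    one_le_two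

/-- The perturbation. -/
def pert (g h : ℝ → ℝ) (e : ℝ) : ℝ → ℝ := fun t => g t + e * h t

theorem Vg_pert {g h : ℝ → ℝ} (hg : MemLp g 2 (volume.restrict (Ioi 0)))
    (hh : MemLp h 2 (volume.restrict (Ioi 0))) (e : ℝ) {t : ℝ} (ht : 0 ≤ t) :
    Vg (pert g h e) t = Vg g t + e * Vg h t := by
  simp only [Vg, pert]
  rw [intervalIntegral.integral_add (memLp_loc hg ht) ((memLp_loc hh ht).const_mul e),
    intervalIntegral.integral_const_mul]

theorem adm_pert {g h : ℝ → ℝ} (hg : Adm g) (hh : Adm h) (e : ℝ) : Adm (pert g h e) := by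
  refine ⟨hg.mem.add (hh.mem.const_mul e), ?_⟩
  have h1 : MemLp (fun t => Vg g t + e * Vg h t) 2 (volume.restrict (Ioi 0)) :=
    hg.memV.add (hh.memV.const_mul e)
  refine h1.ae_eq ?_
  filter_upwards [ae_restrict_mem measurableSet_Ioi] with t ht
  exact (Vg_pert hg.mem hh.mem e (le_of_lt ht)).symm

theorem Sf_pert (hA : T_adm) {g h : ℝ → ℝ} (hg : Adm g) (hh : Adm h) (e : ℝ) {t : ℝ}
    (ht : 0 ≤ t) :
    Sf (Vg (pert g h e)) t = Sf (Vg g) t + e * (Sf (Vg (pert g h 1)) t - Sf (Vg g) t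
      - Sf (Vg h) t) + e ^ 2 * Sf (Vg h) t := by
  have i1 : ∀ k : ℝ → ℝ, Adm k → IntervalIntegrable (fun τ => Vg k τ ^ 2) volume 0 t := by
    intro k hk
    rw [intervalIntegrable_iff_integrableOn_Ioc_of_le ht]
    exact (hA k hk).intV.mono_set Ioc_subset_Ioi_self
  have h1 : ∫ τ in (0 : ℝ)..t, Vg (pert g h e) τ ^ 2 = ∫ τ in (0 : ℝ)..t,
      (Vg g τ ^ 2 + e * (Vg (pert g h 1) τ ^ 2 - Vg g τ ^ 2 - Vg h τ ^ 2)
        + e ^ 2 * Vg h τ ^ 2) := by
    refine intervalIntegral.integral_congr (fun τ hτ => ?_)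
    rw [uIcc_of_le ht] at hτ
    rw [Vg_pert hg.mem hh.mem e hτ.1, Vg_pert hg.mem hh.mem 1 hτ.1]
    ring
  have i2 := i1 _ hg
  have i3 := i1 _ hh
  have i4 := i1 _ (adm_pert hg hh 1)
  simp only [Sf]
  rw [h1, intervalIntegral.integral_add (i2.add (((i4.sub i2).sub i3).const_mul e))
      (i3.const_mul _), intervalIntegral.integral_add i2 (((i4.sub i2).sub i3).const_mul e),
      intervalIntegral.integral_const_mul, intervalIntegral.integral_const_mul,
      intervalIntegral.integral_sub (i4.sub i2) i3, intervalIntegral.integral_sub i4 i2]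
  ring

theorem Mf_pert (hA : T_adm) {g h : ℝ → ℝ} (hg : Adm g) (hh : Adm h) (e : ℝ) :
    Mf (Vg (pert g h e)) = Mf (Vg g) + e * (Mf (Vg (pert g h 1)) - Mf (Vg g)
      - Mf (Vg h)) + e ^ 2 * Mf (Vg h) := by
  have h1 : ∫ τ in Ioi (0 : ℝ), Vg (pert g h e) τ ^ 2 = ∫ τ in Ioi (0 : ℝ),
      (Vg g τ ^ 2 + e * (Vg (pert g h 1) τ ^ 2 - Vg g τ ^ 2 - Vg h τ ^ 2)
        + e ^ 2 * Vg h τ ^ 2) := by
    refine setIntegral_congr_fun measurableSet_Ioi (fun τ hτ => ?_)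
    have hτ' : (0 : ℝ) ≤ τ := le_of_lt hτ
    rw [Vg_pert hg.mem hh.mem e hτ', Vg_pert hg.mem hh.mem 1 hτ']
    ring
  have i2 : Integrable (fun τ => Vg g τ ^ 2) (volume.restrict (Ioi 0)) := (hA _ hg).intV
  have i3 : Integrable (fun τ => Vg h τ ^ 2) (volume.restrict (Ioi 0)) := (hA _ hh).intV
  have i4 : Integrable (fun τ => Vg (pert g h 1) τ ^ 2) (volume.restrict (Ioi 0)) :=
    (hA _ (adm_pert hg hh 1)).intV
  have i5 : Integrable (fun τ => Vg (pert g h 1) τ ^ 2 - Vg g τ ^ 2)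
    (volume.restrict (Ioi 0)) := i4.sub i2
  have i6 : Integrable (fun τ => Vg (pert g h 1) τ ^ 2 - Vg g τ ^ 2 - Vg h τ ^ 2)
    (volume.restrict (Ioi 0)) := i5.sub i3
  have i7 : Integrable (fun τ => e * (Vg (pert g h 1) τ ^ 2 - Vg g τ ^ 2 - Vg h τ ^ 2))
    (volume.restrict (Ioi 0)) := i6.const_mul e
  have i8 : Integrable (fun τ => Vg g τ ^ 2 +
    e * (Vg (pert g h 1) τ ^ 2 - Vg g τ ^ 2 - Vg h τ ^ 2))
    (volume.restrict (Ioi 0)) := i2.add i7
  simp only [Mf]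
  rw [h1, integral_add i8 (i3.const_mul _), integral_add i2 i7,
      integral_const_mul, integral_const_mul,
      integral_sub i5 i3, integral_sub i4 i2]
  ring

theorem kin_pert {g h : ℝ → ℝ} (hg : Adm g) (hh : Adm h) (e : ℝ) :
    IntegrableOn (fun t => g t * h t) (Ioi 0) ∧
    kin (pert g h e) = kin g + e * (8 * π * ∫ t in Ioi (0 : ℝ), g t * h t) + e ^ 2 * kin h := by
  have i1 : Integrable (fun t => g t * h t) (volume.restrict (Ioi 0)) :=
    hg.mem.integrable_mul hh.mem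
  have i2 : Integrable (fun t => g t ^ 2) (volume.restrict (Ioi 0)) := hg.mem.integrable_sq
  have i3 : Integrable (fun t => h t ^ 2) (volume.restrict (Ioi 0)) := hh.mem.integrable_sq
  refine ⟨i1, ?_⟩
  have h1 : ∫ t in Ioi (0 : ℝ), pert g h e t ^ 2 = ∫ t in Ioi (0 : ℝ),
      (g t ^ 2 + (2 * e) * (g t * h t) + e ^ 2 * h t ^ 2) := by
    refine setIntegral_congr_fun measurableSet_Ioi (fun t _ => ?_)
    simp only [pert]; ring
  have i4 : Integrable (fun t => 2 * e * (g t * h t)) (volume.restrict (Ioi 0)) :=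
    i1.const_mul _
  have i5 : Integrable (fun t => g t ^ 2 + 2 * e * (g t * h t)) (volume.restrict (Ioi 0)) :=
    i2.add i4
  simp only [kin]
  rw [h1, integral_add i5 (i3.const_mul _),
    integral_add i2 i4, integral_const_mul, integral_const_mul]
  ring

theorem dom_int (hA : T_adm) {g h : ℝ → ℝ} (hg : Adm g) (hh : Adm h) {x : ℝ} (hx : 0 ≤ x)
    (F : ℝ → ℝ) (C : ℝ) (hF : ContinuousOn F (Ici 0))
    (hb : ∀ t, 0 ≤ t → |F t| ≤ C * (Sf (Vg g) t + Sf (Vg h) t + Sf (Vg g) t ^ 2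
      + Sf (Vg h) t ^ 2)) :
    IntegrableOn (fun t => F t / (x + t) ^ 2) (Ioi 0) := by
  have hg' := hA g hg
  have hh' := hA h hh
  have i1 : Integrable (fun t => C * (Sf (Vg g) t / (x + t) ^ 2 + Sf (Vg h) t / (x + t) ^ 2
      + Sf (Vg g) t ^ 2 / (x + t) ^ 2 + Sf (Vg h) t ^ 2 / (x + t) ^ 2))
      (volume.restrict (Ioi 0)) :=
    ((((hg'.int1 x hx).add (hh'.int1 x hx)).add (hg'.int2 x hx)).add (hh'.int2 x hx)).const_mul C
  refine Integrable.mono' i1 ?_ ?_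
  · refine ContinuousOn.aestronglyMeasurable ?_ measurableSet_Ioi
    refine (hF.mono Ioi_subset_Ici_self).div (by fun_prop) ?_
    intro t ht
    have : 0 < t := ht
    positivity
  · filter_upwards [ae_restrict_mem measurableSet_Ioi] with t ht
    have ht' : 0 < t := ht
    have h1 := hb t ht'.le
    have h3 : 0 < (x + t) ^ 2 := by positivity
    rw [norm_eq_abs, abs_div, abs_of_pos h3]
    calc |F t| / (x + t) ^ 2 ≤ (C * (Sf (Vg g) t + Sf (Vg h) t + Sf (Vg g) t ^ 2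
      + Sf (Vg h) t ^ 2)) / (x + t) ^ 2 := by gcongr
      _ = _ := by ring

theorem poly_zero {L A B D : ℝ} (h : ∀ e : ℝ, 0 ≤ e * L + e ^ 2 * A + e ^ 3 * B + e ^ 4 * D) :
    L = 0 := by
  have hm : IsLocalMin (fun e : ℝ => e * L + e ^ 2 * A + e ^ 3 * B + e ^ 4 * D) 0 := by
    refine Eventually.of_forall (fun e => ?_)
    simpa using h e
  have hd : HasDerivAt (fun e : ℝ => e * L + e ^ 2 * A + e ^ 3 * B + e ^ 4 * D) L 0 := by
    have h1 := ((((hasDerivAt_id' (0 : ℝ)).mul_const L).fun_add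
      (((hasDerivAt_id' (0 : ℝ)).fun_pow 2).mul_const A)).fun_add
      (((hasDerivAt_id' (0 : ℝ)).fun_pow 3).mul_const B)).fun_add
      (((hasDerivAt_id' (0 : ℝ)).fun_pow 4).mul_const D)
    simpa using h1
  exact hm.hasDerivAt_eq_zero hd

theorem P_bd (hA : T_adm) {g h : ℝ → ℝ} (hg : Adm g) (hh : Adm h) {t : ℝ} (ht : 0 ≤ t) :
    |Sf (Vg (pert g h 1)) t - Sf (Vg g) t - Sf (Vg h) t| ≤ Sf (Vg g) t + Sf (Vg h) t := by
  have h1 := (hA _ (adm_pert hg hh 1)).Snn t ht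
  have h2 := (hA _ (adm_pert hg hh (-1))).Snn t ht
  rw [Sf_pert hA hg hh (-1) ht] at h2
  rw [abs_le]
  constructor <;> linarith

theorem att_pert (hA : T_adm) {g h : ℝ → ℝ} (hg : Adm g) (hh : Adm h) {x : ℝ} (hx : 0 ≤ x) :
    IntegrableOn (fun t => ((1 - Sf (Vg g) t) * (Sf (Vg (pert g h 1)) t - Sf (Vg g) t
      - Sf (Vg h) t)) / (x + t) ^ 2) (Ioi 0) ∧
    ∃ A B D : ℝ, ∀ e : ℝ, att x (pert g h e) = att x g
      + e * (∫ t in Ioi (0 : ℝ), ((1 - Sf (Vg g) t) * (Sf (Vg (pert g h 1)) t - Sf (Vg g) t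
      - Sf (Vg h) t)) / (x + t) ^ 2) + e ^ 2 * A + e ^ 3 * B + e ^ 4 * D := by
  have hg' := hA g hg
  have hh' := hA h hh
  have hu' := hA _ (adm_pert hg hh 1)
  set S := Sf (Vg g) with hS
  set W := Sf (Vg h) with hW
  set U := Sf (Vg (pert g h 1)) with hU
  have cS : ContinuousOn S (Ici 0) := hg'.Scont
  have cW : ContinuousOn W (Ici 0) := hh'.Scont
  have cU : ContinuousOn U (Ici 0) := hu'.Scont
  have key : ∀ t, 0 ≤ t → 0 ≤ S t ∧ 0 ≤ W t ∧ |U t - S t - W t| ≤ S t + W t := fun t ht =>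
    ⟨hg'.Snn t ht, hh'.Snn t ht, P_bd hA hg hh ht⟩
  have i0 : IntegrableOn (fun t => (S t - S t ^ 2 / 2) / (x + t) ^ 2) (Ioi 0) := by
    refine dom_int hA hg hh hx (fun t => S t - S t ^ 2 / 2) 1 (by fun_prop) ?_
    intro t ht
    obtain ⟨h1, h2, h3⟩ := key t ht
    rw [abs_le]
    constructor <;> nlinarith [sq_nonneg (S t), sq_nonneg (W t)]
  have i1 : IntegrableOn (fun t => ((1 - S t) * (U t - S t - W t)) / (x + t) ^ 2) (Ioi 0) := by
    refine dom_int hA hg hh hx (fun t => (1 - S t) * (U t - S t - W t)) 2 (by fun_prop) ?_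
    intro t ht
    obtain ⟨h1, h2, h3⟩ := key t ht
    have h4 : |1 - S t| ≤ 1 + S t := by rw [abs_le]; constructor <;> linarith
    rw [abs_mul]
    calc |1 - S t| * |U t - S t - W t| ≤ (1 + S t) * (S t + W t) := by gcongr
      _ ≤ _ := by nlinarith [sq_nonneg (S t - W t)]
  have i2 : IntegrableOn (fun t => (W t - (U t - S t - W t) ^ 2 / 2 - S t * W t) / (x + t) ^ 2)
      (Ioi 0) := by
    refine dom_int hA hg hh hx (fun t => W t - (U t - S t - W t) ^ 2 / 2 - S t * W t) 2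
      (by fun_prop) ?_
    intro t ht
    obtain ⟨h1, h2, h3⟩ := key t ht
    have h4 : (U t - S t - W t) ^ 2 ≤ (S t + W t) ^ 2 := by
      rw [← sq_abs (U t - S t - W t)]
      exact pow_le_pow_left₀ (abs_nonneg _) h3 2
    have h5 : 0 ≤ (U t - S t - W t) ^ 2 := sq_nonneg _
    rw [abs_le]
    constructor <;> nlinarith [sq_nonneg (S t - W t), mul_nonneg h1 h2]
  have i3 : IntegrableOn (fun t => (-((U t - S t - W t) * W t)) / (x + t) ^ 2) (Ioi 0) := by
    refine dom_int hA hg hh hx (fun t => -((U t - S t - W t) * W t)) 2 (by fun_prop) ?_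
    intro t ht
    obtain ⟨h1, h2, h3⟩ := key t ht
    rw [abs_neg, abs_mul, abs_of_nonneg h2]
    calc |U t - S t - W t| * W t ≤ (S t + W t) * W t := by gcongr
      _ ≤ _ := by nlinarith [sq_nonneg (S t - W t)]
  have i4 : IntegrableOn (fun t => (-(W t ^ 2 / 2)) / (x + t) ^ 2) (Ioi 0) := by
    refine dom_int hA hg hh hx (fun t => -(W t ^ 2 / 2)) 1 (by fun_prop) ?_
    intro t ht
    obtain ⟨h1, h2, h3⟩ := key t ht
    rw [abs_neg, abs_of_nonneg (by positivity)]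
    nlinarith [sq_nonneg (S t), sq_nonneg (W t)]
  refine ⟨i1, ∫ t in Ioi (0 : ℝ), (W t - (U t - S t - W t) ^ 2 / 2 - S t * W t) / (x + t) ^ 2,
    ∫ t in Ioi (0 : ℝ), (-((U t - S t - W t) * W t)) / (x + t) ^ 2,
    ∫ t in Ioi (0 : ℝ), (-(W t ^ 2 / 2)) / (x + t) ^ 2, fun e => ?_⟩
  have h1 : att x (pert g h e) = ∫ t in Ioi (0 : ℝ),
      ((S t - S t ^ 2 / 2) / (x + t) ^ 2 + e * (((1 - S t) * (U t - S t - W t)) / (x + t) ^ 2)
      + e ^ 2 * ((W t - (U t - S t - W t) ^ 2 / 2 - S t * W t) / (x + t) ^ 2)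
      + e ^ 3 * ((-((U t - S t - W t) * W t)) / (x + t) ^ 2)
      + e ^ 4 * ((-(W t ^ 2 / 2)) / (x + t) ^ 2)) := by
    simp only [att]
    refine setIntegral_congr_fun measurableSet_Ioi (fun t ht => ?_)
    have ht' : (0 : ℝ) ≤ t := le_of_lt ht
    rw [Sf_pert hA hg hh e ht']
    ring
  have j1 : Integrable (fun t => e * (((1 - S t) * (U t - S t - W t)) / (x + t) ^ 2))
    (volume.restrict (Ioi 0)) := i1.const_mul e
  have j2 : Integrable (fun t => e ^ 2 * ((W t - (U t - S t - W t) ^ 2 / 2 - S t * W t)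
    / (x + t) ^ 2)) (volume.restrict (Ioi 0)) := i2.const_mul _
  have j3 : Integrable (fun t => e ^ 3 * ((-((U t - S t - W t) * W t)) / (x + t) ^ 2))
    (volume.restrict (Ioi 0)) := i3.const_mul _
  have j4 : Integrable (fun t => e ^ 4 * ((-(W t ^ 2 / 2)) / (x + t) ^ 2))
    (volume.restrict (Ioi 0)) := i4.const_mul _
  have k1 : Integrable (fun t => (S t - S t ^ 2 / 2) / (x + t) ^ 2
    + e * (((1 - S t) * (U t - S t - W t)) / (x + t) ^ 2)) (volume.restrict (Ioi 0)) := i0.add j1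
  have k2 : Integrable (fun t => (S t - S t ^ 2 / 2) / (x + t) ^ 2
    + e * (((1 - S t) * (U t - S t - W t)) / (x + t) ^ 2)
    + e ^ 2 * ((W t - (U t - S t - W t) ^ 2 / 2 - S t * W t) / (x + t) ^ 2))
    (volume.restrict (Ioi 0)) := k1.add j2
  have k3 : Integrable (fun t => (S t - S t ^ 2 / 2) / (x + t) ^ 2
    + e * (((1 - S t) * (U t - S t - W t)) / (x + t) ^ 2)
    + e ^ 2 * ((W t - (U t - S t - W t) ^ 2 / 2 - S t * W t) / (x + t) ^ 2)
    + e ^ 3 * ((-((U t - S t - W t) * W t)) / (x + t) ^ 2))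
    (volume.restrict (Ioi 0)) := k2.add j3
  rw [h1, integral_add k3 j4, integral_add k2 j3, integral_add k1 j2, integral_add i0 j1,
    integral_const_mul, integral_const_mul, integral_const_mul, integral_const_mul]
  rfl

theorem phi_props (hA : T_adm) {g : ℝ → ℝ} (hg : Adm g) {x : ℝ} (hx : 0 ≤ x) :
    (∀ t, 0 < t → HasDerivAt (phi x (Vg g)) (-((1 - Sf (Vg g) t) / (x + t) ^ 2)) t) ∧
    (∀ t, 0 < t → |phi x (Vg g) t| ≤ (1 + Mf (Vg g)) / t) ∧ 0 ≤ Mf (Vg g) := by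
  have hg' := hA g hg
  have h1 := phi_facts (Vg g) x (Mf (Vg g)) hx hg'.Scont hg'.Snn hg'.Sle
  have hM : 0 ≤ Mf (Vg g) := (hg'.Snn 0 le_rfl).trans (hg'.Sle 0 le_rfl)
  refine ⟨h1.2.1, fun t ht => (h1.2.2 t ht).trans ?_, hM⟩
  gcongr
  linarith

/-- integrability of `phi v w` -/
theorem phi_int (hA : T_adm) {g h k : ℝ → ℝ} (hk : Adm k) (hg : Adm g) (hh : Adm h) {x : ℝ}
    (hx : 0 ≤ x) :
    IntegrableOn (fun t => phi x (Vg k) t * (Vg g t * Vg h t)) (Ioi 0) := by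
  have hg' := hA g hg
  have hh' := hA h hh
  obtain ⟨hd, hb, hM⟩ := phi_props hA hk hx
  set M := Mf (Vg k)
  have hm : AEStronglyMeasurable (fun t => phi x (Vg k) t * (Vg g t * Vg h t))
      (volume.restrict (Ioi 0)) := by
    refine ContinuousOn.aestronglyMeasurable ?_ measurableSet_Ioi
    have c1 : ContinuousOn (phi x (Vg k)) (Ioi 0) := fun t ht =>
      (hd t ht).continuousAt.continuousWithinAt
    exact c1.mul ((hg'.Vcont.mono Ioi_subset_Ici_self).mul (hh'.Vcont.mono Ioi_subset_Ici_self))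
  have hIoi : Ioi (0 : ℝ) = Ioc 0 1 ∪ Ioi 1 := (Ioc_union_Ioi_eq_Ioi zero_le_one).symm
  rw [hIoi]
  refine IntegrableOn.union ?_ ?_
  · refine Integrable.mono' (g := fun _ => (1 + M) * (((∫ τ in Ioi (0 : ℝ), g τ ^ 2)
      + ∫ τ in Ioi (0 : ℝ), h τ ^ 2) / 2)) (integrable_const _)
      (hm.mono_set Ioc_subset_Ioi_self) ?_
    filter_upwards [ae_restrict_mem measurableSet_Ioc] with t ht
    have h1 := hb t ht.1
    have h2 := hg'.Vbd t ht.1.le
    have h3 := hh'.Vbd t ht.1.le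
    rw [norm_eq_abs, abs_mul]
    have h4 : |Vg g t * Vg h t| ≤ t * (((∫ τ in Ioi (0 : ℝ), g τ ^ 2)
      + ∫ τ in Ioi (0 : ℝ), h τ ^ 2) / 2) := by
      rw [abs_le]
      constructor <;> nlinarith [sq_nonneg (Vg g t - Vg h t), sq_nonneg (Vg g t + Vg h t)]
    calc |phi x (Vg k) t| * |Vg g t * Vg h t| ≤ (1 + M) / t *
        (t * (((∫ τ in Ioi (0 : ℝ), g τ ^ 2) + ∫ τ in Ioi (0 : ℝ), h τ ^ 2) / 2)) := by
          have : 0 ≤ (1 + M) / t := by have := ht.1; positivity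
          gcongr
      _ = _ := by have := ht.1.ne'; field_simp
  · have hs : Ioi (1 : ℝ) ⊆ Ioi 0 := Ioi_subset_Ioi zero_le_one
    refine Integrable.mono' (g := fun t => (1 + M) * ((Vg g t ^ 2 + Vg h t ^ 2) / 2)) ?_
      (hm.mono_set hs) ?_
    · exact ((((hg'.intV.mono_set hs).add (hh'.intV.mono_set hs)).div_const 2).const_mul _)
    · filter_upwards [ae_restrict_mem measurableSet_Ioi] with t ht
      have ht1 : (1 : ℝ) < t := ht
      have h1 := hb t (by linarith)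
      have h5 : (1 + M) / t ≤ 1 + M := div_le_self (by linarith) ht1.le
      rw [norm_eq_abs, abs_mul]
      have h4 : |Vg g t * Vg h t| ≤ (Vg g t ^ 2 + Vg h t ^ 2) / 2 := by
        rw [abs_le]
        constructor <;> nlinarith [sq_nonneg (Vg g t - Vg h t), sq_nonneg (Vg g t + Vg h t)]
      have h6 := h1.trans h5
      gcongr

theorem P_der (hA : T_adm) {g h : ℝ → ℝ} (hg : Adm g) (hh : Adm h) {t : ℝ} (ht : 0 < t) :
    HasDerivAt (fun t => Sf (Vg (pert g h 1)) t - Sf (Vg g) t - Sf (Vg h) t)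
      (8 * π * (Vg g t * Vg h t)) t := by
  have h1 := ((hA _ (adm_pert hg hh 1)).Sder t ht).fun_sub ((hA _ hg).Sder t ht) |>.fun_sub
    ((hA _ hh).Sder t ht)
  refine h1.congr_deriv ?_
  rw [Vg_pert hg.mem hh.mem 1 ht.le]
  ring

theorem parts (hA : T_adm) {g h : ℝ → ℝ} (hg : Adm g) (hh : Adm h) {x : ℝ} (hx : 0 ≤ x) :
    ∫ t in Ioi (0 : ℝ), ((1 - Sf (Vg g) t) * (Sf (Vg (pert g h 1)) t - Sf (Vg g) t
      - Sf (Vg h) t)) / (x + t) ^ 2 =
    8 * π * ∫ t in Ioi (0 : ℝ), phi x (Vg g) t * (Vg g t * Vg h t) := by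
  have hg' := hA g hg
  have hh' := hA h hh
  have hu' := hA _ (adm_pert hg hh 1)
  obtain ⟨hd, hb, hM⟩ := phi_props hA hg hx
  have i1 := (att_pert hA hg hh hx).1
  have i2 := phi_int hA hg hg hh hx
  have hPb : ∀ t, 0 ≤ t → |Sf (Vg (pert g h 1)) t - Sf (Vg g) t - Sf (Vg h) t| ≤
    Sf (Vg g) t + Sf (Vg h) t := fun t ht => P_bd hA hg hh ht
  set P := fun t => Sf (Vg (pert g h 1)) t - Sf (Vg g) t - Sf (Vg h) t with hP
  have hP0 : P 0 = 0 := by simp [hP, hg'.S0, hh'.S0, hu'.S0]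
  have hder : ∀ t ∈ Ioi (0 : ℝ), HasDerivAt (fun t => phi x (Vg g) t * P t)
      (8 * π * (phi x (Vg g) t * (Vg g t * Vg h t)) -
        ((1 - Sf (Vg g) t) * P t) / (x + t) ^ 2) t := by
    intro t ht
    have h1 := (hd t ht).fun_mul (P_der hA hg hh ht)
    refine h1.congr_deriv ?_
    ring
  have hcont : ContinuousWithinAt (fun t => phi x (Vg g) t * P t) (Ici 0) 0 := by
    have h0 : phi x (Vg g) 0 * P 0 = 0 := by rw [hP0, mul_zero]
    set K := 2 * π * (∫ τ in Ioi (0 : ℝ), g τ ^ 2) + 2 * π * (∫ τ in Ioi (0 : ℝ), h τ ^ 2) with hK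
    have h2 : ∀ t ∈ Ici (0 : ℝ), |phi x (Vg g) t * P t| ≤ (1 + Mf (Vg g)) * (K * t) := by
      intro t ht
      rcases eq_or_lt_of_le (show (0 : ℝ) ≤ t from ht) with h | h
      · rw [← h, h0]; simp
      · have h3 := hPb t h.le
        have h4 := hg'.Sbd t h.le
        have h5 := hh'.Sbd t h.le
        have h6 : |P t| ≤ K * t * t := by
          refine h3.trans ?_
          rw [hK]; nlinarith
        rw [abs_mul]
        have h7 := hb t h
        calc |phi x (Vg g) t| * |P t| ≤ (1 + Mf (Vg g)) / t * (K * t * t) := by gcongr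
          _ = _ := by field_simp
    have h3 : Tendsto (fun t : ℝ => (1 + Mf (Vg g)) * (K * t)) (𝓝[Ici 0] 0) (𝓝 0) := by
      have : Tendsto (fun t : ℝ => (1 + Mf (Vg g)) * (K * t)) (𝓝 0)
          (𝓝 ((1 + Mf (Vg g)) * (K * 0))) := by
        refine Continuous.tendsto ?_ 0
        fun_prop
      rw [mul_zero, mul_zero] at this
      exact this.mono_left nhdsWithin_le_nhds
    have h9 : Tendsto (fun t => phi x (Vg g) t * P t) (𝓝[Ici 0] 0) (𝓝 (phi x (Vg g) 0 * P 0)) := by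
      rw [h0]
      refine squeeze_zero_norm' ?_ h3
      filter_upwards [self_mem_nhdsWithin] with t ht
      exact h2 t ht
    exact h9
  have hlim : Tendsto (fun t => phi x (Vg g) t * P t) atTop (𝓝 0) := by
    have h3 : Tendsto (fun t : ℝ => ((1 + Mf (Vg g)) * (Mf (Vg g) + Mf (Vg h))) * t⁻¹) atTop
        (𝓝 0) := by
      simpa using tendsto_inv_atTop_zero.const_mul ((1 + Mf (Vg g)) * (Mf (Vg g) + Mf (Vg h)))
    refine squeeze_zero_norm' ?_ h3
    filter_upwards [eventually_gt_atTop 0] with t ht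
    rw [norm_eq_abs, abs_mul]
    have h4 : |P t| ≤ Mf (Vg g) + Mf (Vg h) :=
      (hPb t ht.le).trans (add_le_add (hg'.Sle t ht.le) (hh'.Sle t ht.le))
    calc |phi x (Vg g) t| * |P t| ≤ (1 + Mf (Vg g)) / t * (Mf (Vg g) + Mf (Vg h)) := by
          have := hb t ht
          have h8 : 0 ≤ (1 + Mf (Vg g)) / t := by positivity
          gcongr
      _ = _ := by ring
  have i3 : IntegrableOn (fun t => 8 * π * (phi x (Vg g) t * (Vg g t * Vg h t)) -
        ((1 - Sf (Vg g) t) * P t) / (x + t) ^ 2) (Ioi 0) := (i2.const_mul (8 * π)).sub i1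
  have h1 := integral_Ioi_of_hasDerivAt_of_tendsto hcont hder i3 hlim
  rw [integral_sub (i2.const_mul (8 * π)) i1, integral_const_mul, hP0, mul_zero, sub_zero] at h1
  linarith

/-- Module EL1. -/
theorem EL1 (hA : T_adm) : T_EL1 := by
  intro x ell g hx hl hmin h hh
  obtain ⟨hg, hmin⟩ := hmin
  have hg' := hA g hg
  have hh' := hA h hh
  obtain ⟨i1, A, B, D, hatt⟩ := att_pert hA hg hh hx
  have i2 := (kin_pert hg hh 0).1
  have i3 := phi_int hA hg hg hh hx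
  have i4 : IntegrableOn (fun t => Vg g t * Vg h t) (Ioi 0) :=
    hg.memV.integrable_mul hh.memV
  have hM1 : Mf (Vg (pert g h 1)) - Mf (Vg g) - Mf (Vg h) =
      8 * π * ∫ t in Ioi (0 : ℝ), Vg g t * Vg h t := by
    have h1 : ∫ τ in Ioi (0 : ℝ), Vg (pert g h 1) τ ^ 2 = ∫ τ in Ioi (0 : ℝ),
        (Vg g τ ^ 2 + 2 * (Vg g τ * Vg h τ) + Vg h τ ^ 2) := by
      refine setIntegral_congr_fun measurableSet_Ioi (fun τ hτ => ?_)
      have hτ' : (0 : ℝ) ≤ τ := le_of_lt hτ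
      rw [Vg_pert hg.mem hh.mem 1 hτ']
      ring
    have j1 : Integrable (fun τ => 2 * (Vg g τ * Vg h τ)) (volume.restrict (Ioi 0)) :=
      i4.const_mul 2
    have j2 : Integrable (fun τ => Vg g τ ^ 2 + 2 * (Vg g τ * Vg h τ))
      (volume.restrict (Ioi 0)) := hg'.intV.add j1
    simp only [Mf]
    rw [h1, integral_add j2 hh'.intV, integral_add hg'.intV j1, integral_const_mul]
    ring
  have hparts := parts hA hg hh hx
  have hL : 8 * π * (∫ t in Ioi (0 : ℝ), g t * h t) +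
      ell * (Mf (Vg (pert g h 1)) - Mf (Vg g) - Mf (Vg h)) -
      (∫ t in Ioi (0 : ℝ), ((1 - Sf (Vg g) t) * (Sf (Vg (pert g h 1)) t - Sf (Vg g) t
      - Sf (Vg h) t)) / (x + t) ^ 2) = 0 := by
    refine poly_zero (A := kin h + ell * Mf (Vg h) - A) (B := -B) (D := -D) (fun e => ?_)
    have h1 := hmin _ (adm_pert hg hh e)
    simp only [J] at h1
    rw [hatt e, (kin_pert hg hh e).2, Mf_pert hA hg hh e] at h1
    linarith
  have i5 : IntegrableOn (fun t => (ell - phi x (Vg g) t) * (Vg g t * Vg h t)) (Ioi 0) := by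
    have h1 := (i4.const_mul ell).sub i3
    refine h1.congr (Eventually.of_forall (fun t => ?_))
    simp only [Pi.sub_apply]
    ring
  refine ⟨i2, i5, ?_⟩
  have h2 : ∫ t in Ioi (0 : ℝ), (ell - phi x (Vg g) t) * (Vg g t * Vg h t) =
      ell * (∫ t in Ioi (0 : ℝ), Vg g t * Vg h t) -
        ∫ t in Ioi (0 : ℝ), phi x (Vg g) t * (Vg g t * Vg h t) := by
    rw [← integral_const_mul, ← integral_sub (i4.const_mul ell) i3]
    refine integral_congr_ae (Eventually.of_forall (fun t => ?_))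
    simp only
    ring
  rw [h2]
  rw [hM1, hparts] at hL
  have hpi : (8 * π) ≠ 0 := by positivity
  have h3 : 8 * π * ((∫ t in Ioi (0 : ℝ), g t * h t) +
      (ell * (∫ t in Ioi (0 : ℝ), Vg g t * Vg h t) -
        ∫ t in Ioi (0 : ℝ), phi x (Vg g) t * (Vg g t * Vg h t))) = 0 := by
    linarith
  exact (mul_eq_zero.1 h3).resolve_left hpi

end Pool.Agent.H36.HM
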