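import Pool.Agent.H36.HM.EL1

/-! Module EL2: regularity of minimisers. -/

namespace Pool.Agent.H36.HM

open MeasureTheory Set Filter Topology Real
open Pool.Agent.H99.HM
open scoped ContDiff

theorem supp_bounds {ψ : ℝ → ℝ} (hc : HasCompactSupport ψ) (hs : tsupport ψ ⊆ Ioi 0) :
    ∃ a b : ℝ, 0 < a ∧ a < b ∧ (∀ t, t ≤ a → ψ t = 0) ∧ (∀ t, b ≤ t → ψ t = 0) := by
  have hK : IsCompact (tsupport ψ) := hc
  rcases (tsupport ψ).eq_empty_or_nonempty with he | hne
  · refine ⟨1, 2, one_pos, one_lt_two, fun t _ => ?_, fun t _ => ?_⟩ <;>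
    · exact image_eq_zero_of_notMem_tsupport (by rw [he]; exact notMem_empty _)
  · obtain ⟨m, hm, hm2⟩ := hK.exists_isLeast hne
    obtain ⟨n, hn, hn2⟩ := hK.exists_isGreatest hne
    have hm0 : 0 < m := hs hm
    have hmn : m ≤ n := hm2 hn
    refine ⟨m / 2, n + 1, by positivity, by linarith, fun t ht => ?_, fun t ht => ?_⟩
    · refine image_eq_zero_of_notMem_tsupport (fun h => ?_)
      have := hm2 h
      linarith
    · refine image_eq_zero_of_notMem_tsupport (fun h => ?_)
      have := hn2 h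
      linarith

theorem Vg_test {ψ : ℝ → ℝ} (hψ : Continuous ψ) {a b : ℝ} (ha : 0 < a)
    (h1 : ∀ t, t ≤ a → ψ t = 0) (h2 : ∀ t, b ≤ t → ψ t = 0) (h0 : ∫ t, ψ t = 0) :
    (∀ t, HasDerivAt (Vg ψ) (ψ t) t) ∧ (∀ t, t ≤ a → Vg ψ t = 0) ∧ (∀ t, b ≤ t → Vg ψ t = 0) := by
  refine ⟨fun t => ?_, fun t ht => ?_, fun t ht => ?_⟩
  · exact intervalIntegral.integral_hasDerivAt_right (hψ.intervalIntegrable _ _)
      hψ.stronglyMeasurable.stronglyMeasurableAtFilter hψ.continuousAt
  · refine intervalIntegral.integral_zero_ae (Eventually.of_forall (fun τ hτ => h1 τ ?_))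
    have := hτ.2
    have h3 : max 0 t ≤ a := max_le ha.le ht
    exact this.trans h3
  · have : Function.support ψ ⊆ Ioc 0 t := by
      intro τ hτ
      constructor
      · by_contra hcon
        exact hτ (h1 τ ((not_lt.1 hcon).trans ha.le))
      · by_contra hcon
        exact hτ (h2 τ (ht.trans (not_le.1 hcon).le))
    simp only [Vg]
    rw [intervalIntegral.integral_eq_integral_of_support_subset this, h0]

theorem adm_test {ψ : ℝ → ℝ} (hψ : Continuous ψ) {a b : ℝ} (ha : 0 < a)
    (h1 : ∀ t, t ≤ a → ψ t = 0) (h2 : ∀ t, b ≤ t → ψ t = 0) (h0 : ∫ t, ψ t = 0) : Adm ψ := by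
  obtain ⟨k1, k2, k3⟩ := Vg_test hψ ha h1 h2 h0
  have c1 : HasCompactSupport ψ := by
    refine HasCompactSupport.intro (isCompact_Icc (a := a) (b := b)) (fun t ht => ?_)
    rw [mem_Icc, not_and_or, not_le, not_le] at ht
    rcases ht with h | h
    · exact h1 t h.le
    · exact h2 t h.le
  have c2 : HasCompactSupport (Vg ψ) := by
    refine HasCompactSupport.intro (isCompact_Icc (a := a) (b := b)) (fun t ht => ?_)
    rw [mem_Icc, not_and_or, not_le, not_le] at ht
    rcases ht with h | h
    · exact k2 t h.le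
    · exact k3 t h.le
  have c3 : Continuous (Vg ψ) := continuous_iff_continuousAt.2 (fun t => (k1 t).continuousAt)
  exact ⟨(hψ.memLp_of_hasCompactSupport c1).restrict _, (c3.memLp_of_hasCompactSupport c2).restrict _⟩

/-- Integration by parts against a test function. -/
theorem parts_test {ψ q Q : ℝ → ℝ} (hψ : Continuous ψ) {a b : ℝ} (ha : 0 < a) (hab : a < b)
    (h1 : ∀ t, t ≤ a → ψ t = 0) (h2 : ∀ t, b ≤ t → ψ t = 0) (h0 : ∫ t, ψ t = 0)
    (hq : ContinuousOn q (Ioi 0)) (hQ : ∀ t, 0 < t → HasDerivAt Q (q t) t) :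
    ∫ t in Ioi (0 : ℝ), q t * Vg ψ t = - ∫ t in Ioi (0 : ℝ), Q t * ψ t := by
  obtain ⟨k1, k2, k3⟩ := Vg_test hψ ha h1 h2 h0
  have hsub : Ioc a b ⊆ Ioi 0 := fun t ht => ha.trans ht.1
  have e1 : ∫ t in Ioi (0 : ℝ), q t * Vg ψ t = ∫ t in a..b, q t * Vg ψ t := by
    rw [intervalIntegral.integral_of_le hab.le]
    refine (setIntegral_eq_of_subset_of_forall_sdiff_eq_zero measurableSet_Ioi hsub ?_)
    intro t ht
    have h3 := ht.2
    rw [mem_Ioc, not_and_or, not_lt, not_le] at h3
    rcases h3 with h | h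
    · rw [k2 t h, mul_zero]
    · rw [k3 t h.le, mul_zero]
  have e2 : ∫ t in Ioi (0 : ℝ), Q t * ψ t = ∫ t in a..b, Q t * ψ t := by
    rw [intervalIntegral.integral_of_le hab.le]
    refine (setIntegral_eq_of_subset_of_forall_sdiff_eq_zero measurableSet_Ioi hsub ?_)
    intro t ht
    have h3 := ht.2
    rw [mem_Ioc, not_and_or, not_lt, not_le] at h3
    rcases h3 with h | h
    · rw [h1 t h, mul_zero]
    · rw [h2 t h.le, mul_zero]
  have hIcc : uIcc a b ⊆ Ioi 0 := by
    rw [uIcc_of_le hab.le]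
    exact fun t ht => lt_of_lt_of_le ha ht.1
  have e3 := intervalIntegral.integral_mul_deriv_eq_deriv_mul (u := Q) (v := Vg ψ)
    (fun t ht => hQ t (hIcc ht)) (fun t _ => k1 t)
    ((hq.mono hIcc).intervalIntegrable) (hψ.intervalIntegrable _ _)
  rw [k2 a le_rfl, k3 b le_rfl] at e3
  rw [e1, e2]
  linarith

/-- du Bois-Reymond lemma on the half line. -/
theorem dubois {f : ℝ → ℝ} (hf : LocallyIntegrableOn f (Ioi 0))
    (h : ∀ ψ : ℝ → ℝ, ContDiff ℝ ∞ ψ → HasCompactSupport ψ → tsupport ψ ⊆ Ioi 0 →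
      ∫ t, ψ t = 0 → ∫ t, ψ t * f t = 0) :
    ∃ c : ℝ, ∀ᵐ t ∂(volume.restrict (Ioi (0 : ℝ))), f t = c := by
  -- the reference bump
  let B : ContDiffBump (1 : ℝ) := ⟨1 / 4, 1 / 2, by norm_num, by norm_num⟩
  set ψ0 : ℝ → ℝ := B.normed volume with hψ0
  have b1 : ContDiff ℝ ∞ ψ0 := B.contDiff_normed
  have b2 : HasCompactSupport ψ0 := B.hasCompactSupport_normed
  have b3 : tsupport ψ0 ⊆ Ioi 0 := by
    rw [hψ0, B.tsupport_normed_eq]
    intro t ht
    rw [Metric.mem_closedBall, Real.dist_eq, abs_le] at ht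
    have h3 : B.rOut = 1 / 2 := rfl
    rw [h3] at ht
    rw [mem_Ioi]; linarith [ht.1]
  have b4 : ∫ t, ψ0 t = 1 := B.integral_normed
  have hloc : ∀ ψ : ℝ → ℝ, Continuous ψ → HasCompactSupport ψ → tsupport ψ ⊆ Ioi 0 →
      Integrable (fun t => ψ t * f t) := by
    intro ψ p1 p2 p3
    have h1 : IntegrableOn f (tsupport ψ) := hf.integrableOn_compact_subset p3 p2
    have h2 : IntegrableOn (fun t => ψ t * f t) (tsupport ψ) :=
      h1.continuousOn_mul p1.continuousOn p2
    refine (integrableOn_iff_integrable_of_support_subset ?_).1 h2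
    intro t ht
    by_contra hcon
    exact ht (by simp [image_eq_zero_of_notMem_tsupport hcon])
  refine ⟨∫ t, ψ0 t * f t, ?_⟩
  set c := ∫ t, ψ0 t * f t with hc
  have key : ∀ᵐ t : ℝ, t ∈ Ioi (0 : ℝ) → f t - c = 0 := by
    refine isOpen_Ioi.ae_eq_zero_of_integral_contDiff_smul_eq_zero ?_ ?_
    · exact hf.sub (locallyIntegrableOn_const c)
    · intro ψ p1 p2 p3
      set m := ∫ t, ψ t with hm
      have i1 := hloc ψ p1.continuous p2 p3
      have i2 := hloc ψ0 b1.continuous b2 b3
      have i3 : Integrable ψ := p1.continuous.integrable_of_hasCompactSupport p2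
      have i4 : Integrable ψ0 := b1.continuous.integrable_of_hasCompactSupport b2
      have h1 := h (fun t => ψ t - m * ψ0 t) (p1.sub (contDiff_const.mul b1))
        (p2.sub (b2.mul_left)) ?_ ?_
      · have h2 : ∫ t, (ψ t - m * ψ0 t) * f t = (∫ t, ψ t * f t) - m * ∫ t, ψ0 t * f t := by
          rw [← integral_const_mul, ← integral_sub i1 (i2.const_mul m)]
          refine integral_congr_ae (Eventually.of_forall (fun t => ?_))
          simp only
          ring
        rw [h2] at h1
        have h3 : ∫ t, ψ t • (f t - c) = (∫ t, ψ t * f t) - (∫ t, ψ t) * c := by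
          rw [← integral_mul_const, ← integral_sub i1 (i3.mul_const c)]
          refine integral_congr_ae (Eventually.of_forall (fun t => ?_))
          simp only [smul_eq_mul]
          ring
        rw [h3]
        linarith
      · refine (tsupport_sub _ _).trans (union_subset p3 ?_)
        exact (tsupport_mul_subset_right).trans b3
      · have h2 : ∫ t, (ψ t - m * ψ0 t) = m - m * 1 := by
          rw [integral_sub i3 (i4.const_mul m), integral_const_mul, b4]
        rw [h2]; ring
  rw [ae_restrict_iff' measurableSet_Ioi]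
  filter_upwards [key] with t ht ht2
  linarith [ht ht2]

/-- Module EL2. -/
theorem EL2 (hA : T_adm) (hE : T_EL1) : T_EL2 := by
  intro x ell g hx hl hmin
  obtain ⟨hg, hmin'⟩ := id hmin
  have hg' := hA g hg
  obtain ⟨hd, hb, hM⟩ := phi_props hA hg hx
  set q : ℝ → ℝ := fun t => (ell - phi x (Vg g) t) * Vg g t with hq
  have cq : ContinuousOn q (Ioi 0) := by
    have c1 : ContinuousOn (phi x (Vg g)) (Ioi 0) := fun t ht =>
      (hd t ht).continuousAt.continuousWithinAt
    exact (continuousOn_const.sub c1).mul (hg'.Vcont.mono Ioi_subset_Ici_self)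
  set Q : ℝ → ℝ := fun t => ∫ τ in (1 : ℝ)..t, q τ with hQ
  have hQd : ∀ t, 0 < t → HasDerivAt Q (q t) t := by
    intro t ht
    refine intervalIntegral.integral_hasDerivAt_right ?_ ?_ ?_
    · refine (cq.mono ?_).intervalIntegrable
      intro τ hτ
      have h1 := hτ.1
      have h2 : 0 < min 1 t := lt_min one_pos ht
      exact lt_of_lt_of_le h2 h1
    · exact cq.stronglyMeasurableAtFilter isOpen_Ioi t ht
    · exact cq.continuousAt (isOpen_Ioi.mem_nhds ht)
  have cQ : ContinuousOn Q (Ioi 0) := fun t ht => (hQd t ht).continuousAt.continuousWithinAt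
  have lg : LocallyIntegrableOn g (Ioi 0) := by
    have h1 : LocallyIntegrable g (volume.restrict (Ioi 0)) :=
      hg.mem.locallyIntegrable one_le_two
    exact locallyIntegrableOn_of_locallyIntegrable_restrict h1
  have lQ : LocallyIntegrableOn Q (Ioi 0) := cQ.locallyIntegrableOn measurableSet_Ioi
  obtain ⟨c, hc⟩ := dubois (lg.sub lQ) (by
    intro ψ p1 p2 p3 p4
    obtain ⟨a, b, ha, hab, h1, h2⟩ := supp_bounds p2 p3
    have adm := adm_test p1.continuous ha h1 h2 p4
    obtain ⟨i1, i2, h3⟩ := hE x ell g hx hl hmin ψ adm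
    have h4 : ∫ t in Ioi (0 : ℝ), (ell - phi x (Vg g) t) * (Vg g t * Vg ψ t) =
        ∫ t in Ioi (0 : ℝ), q t * Vg ψ t := by
      refine integral_congr_ae (Eventually.of_forall (fun t => ?_))
      simp only [hq]; ring
    rw [h4, parts_test p1.continuous ha hab h1 h2 p4 cq hQd] at h3
    have i3 : IntegrableOn (fun t => Q t * ψ t) (Ioi 0) := by
      have k1 : IntegrableOn (fun t => Q t * ψ t) (Icc a b) := by
        refine ContinuousOn.integrableOn_Icc ?_
        refine (cQ.mono ?_).mul p1.continuous.continuousOn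
        exact fun t ht => lt_of_lt_of_le ha ht.1
      refine k1.of_forall_sdiff_eq_zero measurableSet_Ioi ?_
      intro t ht
      have h3 := ht.2
      rw [mem_Icc, not_and_or, not_le, not_le] at h3
      rcases h3 with h | h
      · rw [h1 t h.le, mul_zero]
      · rw [h2 t h.le, mul_zero]
    have h5 : ∫ t, ψ t * (g - Q) t = ∫ t in Ioi (0 : ℝ), (g t * ψ t - Q t * ψ t) := by
      rw [← setIntegral_eq_integral_of_forall_compl_eq_zero (s := Ioi (0 : ℝ))]
      · refine integral_congr_ae (Eventually.of_forall (fun t => ?_))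
        simp only [Pi.sub_apply]; ring
      · intro t ht
        have : t ≤ a := (not_lt.1 ht).trans ha.le
        rw [h1 t this, zero_mul]
    rw [h5, integral_sub i1 i3]
    linarith)
  have hcI : ∀ᵐ t ∂(volume.restrict (Ioi (0 : ℝ))), g t = Q t + c := by
    filter_upwards [hc] with t ht
    simp only [Pi.sub_apply] at ht
    linarith
  refine ⟨fun t => Q t + c, cQ.add continuousOn_const, hcI, ?_, ?_⟩
  · intro t ht
    have ht2 : 0 < t / 2 := by positivity
    have c1 : ContinuousOn (fun t => Q t + c) (Ioi 0) := cQ.add continuousOn_const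
    have heq : ∀ᶠ τ in 𝓝 t, Vg g τ = Vg g (t / 2) + ∫ σ in (t / 2)..τ, (Q σ + c) := by
      filter_upwards [lt_mem_nhds (show t / 2 < t by linarith)] with τ hτ
      have k1 : IntervalIntegrable g volume 0 (t / 2) := memLp_loc hg.mem ht2.le
      have k2 : IntervalIntegrable g volume (t / 2) τ :=
        k1.symm.trans (memLp_loc hg.mem (ht2.trans hτ).le)
      have k3 := intervalIntegral.integral_add_adjacent_intervals k1 k2
      have k4 : ∫ σ in (t / 2)..τ, g σ = ∫ σ in (t / 2)..τ, (Q σ + c) := by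
        rw [intervalIntegral.integral_of_le hτ.le, intervalIntegral.integral_of_le hτ.le]
        refine integral_congr_ae ?_
        have hsub : Ioc (t / 2) τ ⊆ Ioi 0 := fun σ hσ => ht2.trans hσ.1
        exact ae_restrict_of_ae_restrict_of_subset hsub hcI
      simp only [Vg]
      rw [← k3, k4]
    refine HasDerivAt.congr_of_eventuallyEq ?_ heq
    have h1 : HasDerivAt (fun τ => ∫ σ in (t / 2)..τ, (Q σ + c)) (Q t + c) t := by
      refine intervalIntegral.integral_hasDerivAt_right ?_ ?_ ?_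
      · refine (c1.mono ?_).intervalIntegrable
        intro τ hτ
        have h1 := hτ.1
        have h2 : 0 < min (t / 2) t := lt_min ht2 ht
        exact lt_of_lt_of_le h2 h1
      · exact c1.stronglyMeasurableAtFilter isOpen_Ioi t ht
      · exact c1.continuousAt (isOpen_Ioi.mem_nhds ht)
    exact h1.const_add _
  · intro t ht
    exact (hQd t ht).add_const c

end Pool.Agent.H36.HM
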