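import Pool.Agent.H99.HM.Targets

/-! The potential of a bounded continuous mass function. -/

namespace Pool.Agent.H36.HM

open MeasureTheory Set Filter Topology Real
open Pool.Agent.H99.HM

theorem int_inv_sq (x t : ℝ) (hx : 0 ≤ x) (ht : 0 < t) :
    IntegrableOn (fun τ => 1 / (x + τ) ^ 2) (Ioi t) ∧
      ∫ τ in Ioi t, 1 / (x + τ) ^ 2 = 1 / (x + t) := by
  have hd : ∀ τ ∈ Ici t, HasDerivAt (fun τ => -(x + τ)⁻¹) (1 / (x + τ) ^ 2) τ := by
    intro τ hτ
    have hpos : 0 < x + τ := by have := mem_Ici.1 hτ; linarith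
    have h1 : HasDerivAt (fun τ : ℝ => x + τ) 1 τ := (hasDerivAt_id τ).const_add x
    have h2 := (h1.inv hpos.ne').neg
    have h3 : -(-1 / (x + τ) ^ 2) = 1 / (x + τ) ^ 2 := by rw [neg_div, neg_neg]
    rw [h3] at h2
    exact h2
  have hl : Tendsto (fun τ : ℝ => -(x + τ)⁻¹) atTop (𝓝 0) := by
    have : Tendsto (fun τ : ℝ => x + τ) atTop atTop := tendsto_atTop_add_const_left _ _ tendsto_id
    simpa using this.inv_tendsto_atTop.neg
  have hnn : ∀ τ ∈ Ioi t, 0 ≤ 1 / (x + τ) ^ 2 := fun τ _ => by positivity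
  refine ⟨integrableOn_Ioi_deriv_of_nonneg' hd hnn hl, ?_⟩
  rw [integral_Ioi_of_hasDerivAt_of_nonneg' hd hnn hl]
  simp

theorem phi_facts (v : ℝ → ℝ) (x M : ℝ) (hx : 0 ≤ x) (hc : ContinuousOn (Sf v) (Ici 0))
    (h0 : ∀ t, 0 ≤ t → 0 ≤ Sf v t) (hM : ∀ t, 0 ≤ t → Sf v t ≤ M) :
    (∀ t, 0 < t → IntegrableOn (fun τ => (1 - Sf v τ) / (x + τ) ^ 2) (Ioi t)) ∧
    (∀ t, 0 < t → HasDerivAt (phi x v) (-((1 - Sf v t) / (x + t) ^ 2)) t) ∧
    (∀ t, 0 < t → |phi x v t| ≤ (1 + M) / (x + t)) := by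
  have hcf : ContinuousOn (fun τ => (1 - Sf v τ) / (x + τ) ^ 2) (Ioi 0) := by
    refine ContinuousOn.div ?_ ?_ ?_
    · exact continuousOn_const.sub (hc.mono Ioi_subset_Ici_self)
    · fun_prop
    · intro τ hτ
      have : 0 < τ := hτ
      positivity
  have hbd : ∀ τ, 0 < τ → |(1 - Sf v τ) / (x + τ) ^ 2| ≤ (1 + M) * (1 / (x + τ) ^ 2) := by
    intro τ hτ
    have h1 := h0 τ hτ.le
    have h2 := hM τ hτ.le
    have h3 : 0 < (x + τ) ^ 2 := by positivity
    rw [abs_div, abs_of_pos h3, mul_one_div]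
    gcongr
    rw [abs_le]; constructor <;> linarith
  have hint : ∀ t, 0 < t → IntegrableOn (fun τ => (1 - Sf v τ) / (x + τ) ^ 2) (Ioi t) := by
    intro t ht
    refine Integrable.mono' (((int_inv_sq x t hx ht).1).const_mul (1 + M)) ?_ ?_
    · exact (hcf.mono (Ioi_subset_Ioi ht.le)).aestronglyMeasurable measurableSet_Ioi
    · filter_upwards [ae_restrict_mem measurableSet_Ioi] with τ hτ
      exact hbd τ (ht.trans hτ)
  refine ⟨hint, ?_, ?_⟩
  · intro t ht
    have ht2 : 0 < t / 2 := by positivity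
    -- near t, phi = phi(t/2) - ∫_{t/2}^τ
    have heq : ∀ᶠ τ in 𝓝 t, phi x v τ =
        phi x v (t / 2) - ∫ σ in (t / 2)..τ, (1 - Sf v σ) / (x + σ) ^ 2 := by
      filter_upwards [lt_mem_nhds (show t / 2 < t by linarith)] with τ hτ
      have := intervalIntegral.integral_Ioi_sub_Ioi (f := fun σ => (1 - Sf v σ) / (x + σ) ^ 2)
        (μ := volume) (hint _ ht2) hτ.le
      simp only [phi]
      linarith
    refine HasDerivAt.congr_of_eventuallyEq ?_ heq
    have h1 : HasDerivAt (fun τ => ∫ σ in (t / 2)..τ, (1 - Sf v σ) / (x + σ) ^ 2)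
        ((1 - Sf v t) / (x + t) ^ 2) t := by
      refine intervalIntegral.integral_hasDerivAt_right ?_ ?_ ?_
      · rw [intervalIntegrable_iff_integrableOn_Ioc_of_le (by linarith)]
        exact (hint _ ht2).mono_set Ioc_subset_Ioi_self
      · exact hcf.stronglyMeasurableAtFilter isOpen_Ioi t ht
      · exact hcf.continuousAt (isOpen_Ioi.mem_nhds ht)
    simpa using h1.const_sub (phi x v (t / 2))
  · intro t ht
    have h1 := int_inv_sq x t hx ht
    have h2 : |phi x v t| ≤ ∫ τ in Ioi t, (1 + M) * (1 / (x + τ) ^ 2) := by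
      have h3 := norm_integral_le_of_norm_le (h1.1.const_mul (1 + M))
        (f := fun τ => (1 - Sf v τ) / (x + τ) ^ 2) (by
          filter_upwards [ae_restrict_mem measurableSet_Ioi] with τ hτ
          exact hbd τ (ht.trans hτ))
      simpa [phi] using h3
    rw [integral_const_mul, h1.2] at h2
    rwa [mul_one_div] at h2

end Pool.Agent.H36.HM
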